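import Pool.Agent.Helper11.TP.CBnd
import Pool.Agent.Helper49.CP.OpsK

/-!
# Cones over conic bundles over the line: families over finite fields
-/

set_option autoImplicit false

namespace Pool.Agent.Helper11.TP

open Pool.Agent.Helper29.CQ Pool.Agent.Helper65.CC Pool.Agent.Helper87.CC
  Pool.Agent.Helper65.CC.KFn Pool.Agent.Helper49.QP
open Pool.Agent.Helper9.QP (A4 Cst)
open Pool.Agent.Helper9.TP (CB InvB)
open Pool.Agent.Helper71.CP (ev)
open Pool.Agent.Helper71.PN (Sc D1 PC)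
open Pool.Agent.Helper49.CP (scCls Gk ops_k mem_of_k mem_k_D1)
open Pool.Agent.Helper49.TP (mem_A2_cls mem_cls_zero Hom2)
open Polynomial

/-- binary quadratic forms over the line -/
noncomputable def SB {k : Type} [Field k] (q : Fin 3 → k[X]) : KFn k :=
  (A3 k).cls ⟨fun x => aeval x.1 (q 0) * x.2.1 ^ 2 + aeval x.1 (q 1) * (x.2.1 * x.2.2) +
    aeval x.1 (q 2) * x.2.2 ^ 2, fun f x => by
    simp only [map_add, map_mul, map_pow, ← aeval_algHom_apply]
    rfl⟩

noncomputable instance {k : Type} [Field k] (q : Fin 3 → k[X]) : Rp (SB q) := by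
  unfold SB
  infer_instance

section small

variable {k : Type} [Field k]

/-- the scaling of the last two coordinates -/
def A3f : Sc (A3 k) where
  sc u x := (x.1, u * x.2.1, u * x.2.2)
  one _ := Prod.ext rfl (Prod.ext (one_mul _) (one_mul _))
  mul _ _ _ := Prod.ext rfl (Prod.ext (mul_assoc _ _ _) (mul_assoc _ _ _))
  nat f _ _ := Prod.ext rfl (Prod.ext (map_mul f _ _) (map_mul f _ _))

/-- a polynomial in the first variable -/
noncomputable def fst2 (a : k[X]) : MvPolynomial (Fin 2) k := aeval (MvPolynomial.X 0) a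

theorem aeval_fst2 (a : k[X]) {R : Type} [CommRing R] [Algebra k R] (x y : R) :
    MvPolynomial.aeval ![x, y] (fst2 a) = aeval x a := by
  unfold fst2
  rw [← aeval_algHom_apply, MvPolynomial.aeval_X]
  rfl

/-- the curve or plane `a x ^ 2 + b x + c = 0` -/
noncomputable def pl (a b c : k[X]) : MvPolynomial (Fin 2) k :=
  fst2 a * MvPolynomial.X 1 ^ 2 + fst2 b * MvPolynomial.X 1 + fst2 c

theorem aeval_pl (a b c : k[X]) {R : Type} [CommRing R] [Algebra k R] (x y : R) :
    MvPolynomial.aeval ![x, y] (pl a b c) = aeval x a * y ^ 2 + aeval x b * y + aeval x c := by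
  unfold pl
  simp only [map_add, map_mul, map_pow, aeval_fst2, MvPolynomial.aeval_X]
  rfl

variable {K : Type} [Field K] [Algebra k K] {G : ∀ (R : Type) [CommRing R] [Algebra K R], Prop}

theorem mem_PC_k [Finite k] (hG : KOps K G) (hW : Cst k G) (h : MvPolynomial (Fin 2) k) :
    (PC h).Mem (fun R _ _ => Gk k G R) := by
  by_cases h0 : h = 0
  · refine mem_cls_zero _ _ (fun R _ _ x => ?_) ?_
    · subst h0
      exact map_zero _
    · exact Mem.of_iso isoA2.symm (Mem.line (ops_k hG) (mem_k_D1 hW D1.line1))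
  · exact mem_k_D1 hW (D1.curve h0)

theorem mem_SB_k [Finite k] (hG : KOps K G) (hW : Cst k G) (q : Fin 3 → k[X]) :
    (SB q).Mem (fun R _ _ => Gk k G R) := by
  let y : Coord (SB q) := ⟨fun x => x.1.2.2, fun _ _ => rfl⟩
  refine (scCls A3f _ 2 fun {R} _ _ t x => ?_).mem (ops_k hG) y (fun _ _ => rfl)
    (Mem.of_iso ?_ (mem_PC_k hG hW (pl (q 0) (q 1) (q 2))))
    (Mem.of_iso ?_ (mem_PC_k hG hW (pl (q 0) 0 0)))
  · change aeval x.1 (q 0) * (t * x.2.1) ^ 2 + aeval x.1 (q 1) * (t * x.2.1 * (t * x.2.2)) +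
      aeval x.1 (q 2) * (t * x.2.2) ^ 2 = t ^ 2 * (aeval x.1 (q 0) * x.2.1 ^ 2 +
        aeval x.1 (q 1) * (x.2.1 * x.2.2) + aeval x.1 (q 2) * x.2.2 ^ 2)
    ring
  · exact
      { hom := fun {R} _ _ p => ⟨(p.1.1.1, p.1.1.2.1), by
          have h1 : aeval p.1.1.1 (q 0) * p.1.1.2.1 ^ 2 +
            aeval p.1.1.1 (q 1) * (p.1.1.2.1 * p.1.1.2.2) +
            aeval p.1.1.1 (q 2) * p.1.1.2.2 ^ 2 = 0 := p.1.2
          have h2 : p.1.1.2.2 - algebraMap k R 1 = 0 := p.2
          rw [sub_eq_zero.1 h2, map_one] at h1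
          refine (aeval_pl _ _ _ _ _).trans ?_
          linear_combination h1⟩
        inv := fun {R} _ _ y => ⟨⟨(y.1.1, y.1.2, 1), by
          have h1 := (aeval_pl (q 0) (q 1) (q 2) y.1.1 y.1.2).symm.trans y.2
          change aeval y.1.1 (q 0) * y.1.2 ^ 2 + aeval y.1.1 (q 1) * (y.1.2 * 1) +
            aeval y.1.1 (q 2) * 1 ^ 2 = 0
          linear_combination h1⟩, by
          change (1 : R) - algebraMap k R 1 = 0
          rw [map_one, sub_self]⟩
        inv_hom := fun {R} _ _ p => by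
          have h2 : p.1.1.2.2 - algebraMap k R 1 = 0 := p.2
          rw [map_one] at h2
          exact Subtype.ext (Subtype.ext (Prod.ext rfl (Prod.ext rfl (sub_eq_zero.1 h2).symm)))
        hom_inv := fun _ => rfl
        nat := fun _ _ => rfl }
  · exact
      { hom := fun {R} _ _ p => ⟨(p.1.1.1, p.1.1.2.1), by
          have h1 : aeval p.1.1.1 (q 0) * p.1.1.2.1 ^ 2 +
            aeval p.1.1.1 (q 1) * (p.1.1.2.1 * p.1.1.2.2) +
            aeval p.1.1.1 (q 2) * p.1.1.2.2 ^ 2 = 0 := p.1.2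
          have h2 : p.1.1.2.2 = 0 := p.2
          rw [h2] at h1
          refine (aeval_pl _ _ _ _ _).trans ?_
          rw [map_zero]
          linear_combination h1⟩
        inv := fun {R} _ _ y => ⟨⟨(y.1.1, y.1.2, 0), by
          have h1 := (aeval_pl (q 0) 0 0 y.1.1 y.1.2).symm.trans y.2
          rw [map_zero] at h1
          change aeval y.1.1 (q 0) * y.1.2 ^ 2 + aeval y.1.1 (q 1) * (y.1.2 * 0) +
            aeval y.1.1 (q 2) * 0 ^ 2 = 0
          linear_combination h1⟩, rfl⟩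
        inv_hom := fun {R} _ _ p => by
          have h2 : p.1.1.2.2 = 0 := p.2
          exact Subtype.ext (Subtype.ext (Prod.ext rfl (Prod.ext rfl h2.symm)))
        hom_inv := fun _ => rfl
        nat := fun f _ => Subtype.ext (Prod.ext rfl rfl) }

/-- the base change of the family of binary forms -/
noncomputable def bcSB (q : Fin 3 → k[X]) :
    Iso (SB (fun i => (q i).map (algebraMap k K))) (bc K (SB q)) where
  hom {R} _ _ x := ⟨x.1, by
    let _ := rs k K R
    have _ : IsScalarTower k K R := IsScalarTower.of_algebraMap_eq fun _ => rfl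
    have h1 : aeval x.1.1 ((q 0).map (algebraMap k K)) * x.1.2.1 ^ 2 +
      aeval x.1.1 ((q 1).map (algebraMap k K)) * (x.1.2.1 * x.1.2.2) +
      aeval x.1.1 ((q 2).map (algebraMap k K)) * x.1.2.2 ^ 2 = 0 := x.2
    rw [aeval_map_algebraMap, aeval_map_algebraMap, aeval_map_algebraMap] at h1
    exact h1⟩
  inv {R} _ _ x := ⟨x.1, by
    let _ := rs k K R
    have _ : IsScalarTower k K R := IsScalarTower.of_algebraMap_eq fun _ => rfl
    change aeval x.1.1 ((q 0).map (algebraMap k K)) * x.1.2.1 ^ 2 +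
      aeval x.1.1 ((q 1).map (algebraMap k K)) * (x.1.2.1 * x.1.2.2) +
      aeval x.1.1 ((q 2).map (algebraMap k K)) * x.1.2.2 ^ 2 = 0
    rw [aeval_map_algebraMap, aeval_map_algebraMap, aeval_map_algebraMap]
    exact x.2⟩
  inv_hom _ := rfl
  hom_inv _ := rfl
  nat _ _ := rfl

theorem mem_SB [Finite k] (hG : KOps K G) (hW : Cst k G) (q : Fin 3 → k[X]) :
    (SB (fun i => (q i).map (algebraMap k K))).Mem G :=
  Mem.of_iso (bcSB q) (mem_of_k hG (mem_SB_k hG hW q))

end small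

variable {K : Type} [Field K] {G : ∀ (R : Type) [CommRing R] [Algebra K R], Prop}

/-- the base coordinate -/
noncomputable def SB.t (q : Fin 3 → K[X]) : Coord (SB q) := ⟨fun x => x.1.1, fun _ _ => rfl⟩

theorem SB.fib [IsAlgClosed K] (hG : GOps K G) (q : Fin 3 → K[X]) (s : K) :
    ((SB q).cls (subC (SB.t q) s)).Mem G := by
  let w : Coord (A2 K) := ⟨fun {R} _ _ x => algebraMap K R ((q 0).eval s) * x.1 ^ 2 +
    algebraMap K R ((q 1).eval s) * (x.1 * x.2) + algebraMap K R ((q 2).eval s) * x.2 ^ 2,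
    fun f x => by
    simp only [map_add, map_mul, map_pow, AlgHom.commutes]
    rfl⟩
  refine Mem.of_iso ?_ (mem_A2_cls hG w (m := 2) ?_)
  · have key : ∀ (R : Type) [CommRing R] [Algebra K R] (t x y : R), t - algebraMap K R s = 0 →
        aeval t (q 0) * x ^ 2 + aeval t (q 1) * (x * y) + aeval t (q 2) * y ^ 2 =
        algebraMap K R ((q 0).eval s) * x ^ 2 +
        algebraMap K R ((q 1).eval s) * (x * y) + algebraMap K R ((q 2).eval s) * y ^ 2 := by
      intro R _ _ t x y h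
      rw [sub_eq_zero.1 h]
      simp only [aeval_algebraMap_apply, coe_aeval_eq_eval]
    exact
      { hom := fun {R} _ _ x => ⟨(x.1.1.2.1, x.1.1.2.2), (key R _ _ _ x.2).symm.trans x.1.2⟩
        inv := fun {R} _ _ y => ⟨⟨(algebraMap K R s, y.1.1, y.1.2),
          (key R _ _ _ (sub_self _)).trans y.2⟩, sub_self _⟩
        inv_hom := fun {R} _ _ x => by
          have h1 : x.1.1.1 - algebraMap K R s = 0 := x.2
          exact Subtype.ext (Subtype.ext (Prod.ext (sub_eq_zero.1 h1).symm rfl))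
        hom_inv := fun _ => rfl
        nat := fun _ _ => rfl }
  · intro R _ _ t x y
    change algebraMap K R ((q 0).eval s) * (t * x) ^ 2 +
      algebraMap K R ((q 1).eval s) * (t * x * (t * y)) +
      algebraMap K R ((q 2).eval s) * (t * y) ^ 2 = t ^ 2 * (algebraMap K R ((q 0).eval s) * x ^ 2 +
      algebraMap K R ((q 1).eval s) * (x * y) + algebraMap K R ((q 2).eval s) * y ^ 2)
    ring

/-- projection from a vector in the radical -/
noncomputable def isoR {q : Fin 6 → K[X]} {v : Fin 3 → K[X]} {h : K[X]} (D : PD q v h)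
    (hv : pL q v = 0) :
    Iso (QBo q h) ((SB ![q 0, q 1, q 2]).opn (polyC (SB.t _) h)).line where
  hom {R} _ _ x := (⟨⟨(x.1.1.2.2.2,
      x.1.1.1 - x.1.1.2.2.1 * Ring.inverse (aeval x.1.1.2.2.2 (v 2)) * aeval x.1.1.2.2.2 (v 0),
      x.1.1.2.1 - x.1.1.2.2.1 * Ring.inverse (aeval x.1.1.2.2.2 (v 2)) *
        aeval x.1.1.2.2.2 (v 1)), by
      have ht : IsUnit (aeval x.1.1.2.2.2 h) := x.2
      have hF : tq q x.1.1.2.2.2 x.1.1.1 x.1.1.2.1 x.1.1.2.2.1 = 0 := x.1.2
      have h1 := D.form ht x.1.1.1 x.1.1.2.1 x.1.1.2.2.1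
      rw [hF, hv] at h1
      simp only [Pi.zero_apply, map_zero, zero_mul, add_zero, mul_zero] at h1
      unfold tq te at h1
      refine Eq.trans ?_ h1.symm
      change aeval _ (q 0) * _ ^ 2 + aeval _ (q 1) * (_ * _) + aeval _ (q 2) * _ ^ 2 = _
      ring⟩, x.2⟩, x.1.1.2.2.1)
  inv {R} _ _ y := ⟨⟨(
      y.1.1.1.2.1 + y.2 * Ring.inverse (aeval y.1.1.1.1 (v 2)) * aeval y.1.1.1.1 (v 0),
      y.1.1.1.2.2 + y.2 * Ring.inverse (aeval y.1.1.1.1 (v 2)) * aeval y.1.1.1.1 (v 1),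
      y.2, y.1.1.1.1), by
      have ht : IsUnit (aeval y.1.1.1.1 h) := y.1.2
      have h2 := mul_inv' (D.u2 R _ ht)
      have hy : aeval y.1.1.1.1 (q 0) * y.1.1.1.2.1 ^ 2 +
        aeval y.1.1.1.1 (q 1) * (y.1.1.1.2.1 * y.1.1.1.2.2) +
        aeval y.1.1.1.1 (q 2) * y.1.1.1.2.2 ^ 2 = 0 := y.1.1.2
      have h4 := tq_add D.iso y.1.1.1.1 y.1.1.1.2.1 y.1.1.1.2.2 0
        (y.2 * Ring.inverse (aeval y.1.1.1.1 (v 2)))
      have e3 : 0 + y.2 * Ring.inverse (aeval y.1.1.1.1 (v 2)) * aeval y.1.1.1.1 (v 2) =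
        y.2 := by linear_combination y.2 * h2
      rw [e3, hv] at h4
      refine h4.trans ?_
      simp only [Pi.zero_apply, map_zero, zero_mul, add_zero, mul_zero]
      unfold tq te
      linear_combination hy⟩, y.1.2⟩
  inv_hom {R} _ _ x := by
    refine Subtype.ext (Subtype.ext (Prod.ext ?_ (Prod.ext ?_ rfl)))
    · change x.1.1.1 - x.1.1.2.2.1 * Ring.inverse (aeval x.1.1.2.2.2 (v 2)) *
        aeval x.1.1.2.2.2 (v 0) + x.1.1.2.2.1 * Ring.inverse (aeval x.1.1.2.2.2 (v 2)) *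
        aeval x.1.1.2.2.2 (v 0) = x.1.1.1
      ring
    · change x.1.1.2.1 - x.1.1.2.2.1 * Ring.inverse (aeval x.1.1.2.2.2 (v 2)) *
        aeval x.1.1.2.2.2 (v 1) + x.1.1.2.2.1 * Ring.inverse (aeval x.1.1.2.2.2 (v 2)) *
        aeval x.1.1.2.2.2 (v 1) = x.1.1.2.1
      ring
  hom_inv {R} _ _ y := by
    refine Prod.ext (Subtype.ext (Subtype.ext (Prod.ext rfl (Prod.ext ?_ ?_)))) rfl
    · change y.1.1.1.2.1 + y.2 * Ring.inverse (aeval y.1.1.1.1 (v 2)) * aeval y.1.1.1.1 (v 0) -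
        y.2 * Ring.inverse (aeval y.1.1.1.1 (v 2)) * aeval y.1.1.1.1 (v 0) = y.1.1.1.2.1
      ring
    · change y.1.1.1.2.2 + y.2 * Ring.inverse (aeval y.1.1.1.1 (v 2)) * aeval y.1.1.1.1 (v 1) -
        y.2 * Ring.inverse (aeval y.1.1.1.1 (v 2)) * aeval y.1.1.1.1 (v 1) = y.1.1.1.2.2
      ring
  nat {R S} _ _ _ _ f x := by
    have ht : IsUnit (aeval x.1.1.2.2.2 h) := x.2
    have h3 := D.u2 R _ ht
    refine Prod.ext (Subtype.ext (Subtype.ext (Prod.ext rfl (Prod.ext ?_ ?_)))) rfl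
    · change f (x.1.1.1 - x.1.1.2.2.1 * Ring.inverse (aeval x.1.1.2.2.2 (v 2)) *
        aeval x.1.1.2.2.2 (v 0)) = f x.1.1.1 - f x.1.1.2.2.1 *
        Ring.inverse (aeval (f x.1.1.2.2.2) (v 2)) * aeval (f x.1.1.2.2.2) (v 0)
      rw [map_sub, map_mul, map_mul, inv_nat f h3, ← aeval_algHom_apply, ← aeval_algHom_apply]
    · change f (x.1.1.2.1 - x.1.1.2.2.1 * Ring.inverse (aeval x.1.1.2.2.2 (v 2)) *
        aeval x.1.1.2.2.2 (v 1)) = f x.1.1.2.1 - f x.1.1.2.2.1 *
        Ring.inverse (aeval (f x.1.1.2.2.2) (v 2)) * aeval (f x.1.1.2.2.2) (v 1)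
      rw [map_sub, map_mul, map_mul, inv_nat f h3, ← aeval_algHom_apply, ← aeval_algHom_apply]

/-- a vector in the radical with `v₂ ≠ 0` -/
theorem QB.mem_rad [IsAlgClosed K] (h2 : (2 : K) ≠ 0) (hG : GOps K G) (q : Fin 6 → K[X])
    (v : Fin 3 → K[X]) (hv : pL q v = 0) (hv2 : v 2 ≠ 0)
    (hS : (SB ![q 0, q 1, q 2]).Mem G) : (QB q).Mem G := by
  have D : PD q v (v 2) := ⟨isot_of_rad h2 hv, fun R _ _ t ht => ht⟩
  refine mem_fibres hG.toKOps _ _ (QB.r q) (v 2) hv2 rfl (QB.fib hG q)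
    (Mem.of_iso (isoR D hv) (Mem.line hG.toKOps ?_))
  exact mem_opn_poly hG.toKOps _ (SB.t _) _ hv2 hS (SB.fib hG _)

/-- a nonzero vector in the radical -/
theorem QB.mem_rad' [IsAlgClosed K] (h2 : (2 : K) ≠ 0) (hG : GOps K G) (q : Fin 6 → K[X])
    (v : Fin 3 → K[X]) (hv : pL q v = 0) (hv0 : v ≠ 0)
    (hS : ∀ a b c : Fin 6, (SB ![q a, q b, q c]).Mem G) : (QB q).Mem G := by
  have e0 : 2 * q 0 * v 0 + q 1 * v 1 + q 3 * v 2 = 0 := congrFun hv 0
  have e1 : q 1 * v 0 + 2 * q 2 * v 1 + q 4 * v 2 = 0 := congrFun hv 1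
  have e2 : q 3 * v 0 + q 4 * v 1 + 2 * q 5 * v 2 = 0 := congrFun hv 2
  by_cases h : v 2 = 0
  · by_cases h' : v 1 = 0
    · have h'' : v 0 ≠ 0 := by
        intro h3
        apply hv0
        funext m
        fin_cases m
        · exact h3
        · exact h'
        · exact h
      refine Mem.of_iso (QB.sxz q) (QB.mem_rad h2 hG _ ![v 2, v 1, v 0] ?_ h'' (hS 5 4 2))
      funext m
      fin_cases m
      · change 2 * q 5 * v 2 + q 4 * v 1 + q 3 * v 0 = 0
        linear_combination e2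
      · change q 4 * v 2 + 2 * q 2 * v 1 + q 1 * v 0 = 0
        linear_combination e1
      · change q 3 * v 2 + q 1 * v 1 + 2 * q 0 * v 0 = 0
        linear_combination e0
    · refine Mem.of_iso (QB.syz q) (QB.mem_rad h2 hG _ ![v 0, v 2, v 1] ?_ h' (hS 0 3 5))
      funext m
      fin_cases m
      · change 2 * q 0 * v 0 + q 3 * v 2 + q 1 * v 1 = 0
        linear_combination e0
      · change q 3 * v 0 + 2 * q 5 * v 2 + q 4 * v 1 = 0
        linear_combination e2
      · change q 1 * v 0 + q 4 * v 2 + 2 * q 2 * v 1 = 0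
        linear_combination e1
  · exact QB.mem_rad h2 hG q v hv h (hS 0 1 2)

theorem Mq_map {k : Type} [Field k] [Algebra k K] (q : Fin 6 → k[X]) :
    Mq (fun m => (q m).map (algebraMap k K)) = (mapRingHom (algebraMap k K)).mapMatrix (Mq q) := by
  ext a b
  fin_cases a <;> fin_cases b <;> simp [Mq]

/-- **families over finite fields** -/
theorem QB.mem_fin [IsAlgClosed K] (h2 : (2 : K) ≠ 0) (hG : GOps K G) {k : Type} [Field k]
    [Finite k] [Algebra k K] (hW : Cst k G) (q : Fin 6 → k[X]) :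
    (QB (fun m => (q m).map (algebraMap k K))).Mem G := by
  by_cases hd : (Mq q).det = 0
  · rw [← Matrix.exists_mulVec_eq_zero_iff] at hd
    obtain ⟨v, hv0, hv⟩ := hd
    rw [Mq_mulVec] at hv
    refine QB.mem_rad' h2 hG _ (fun m => (v m).map (algebraMap k K)) ?_ ?_ ?_
    · have key : ∀ m, pL (fun m => (q m).map (algebraMap k K))
          (fun m => (v m).map (algebraMap k K)) m = (pL q v m).map (algebraMap k K) := by
        intro m
        fin_cases m <;> simp [pL]
      funext m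
      rw [key, hv]
      simp
    · intro h
      apply hv0
      funext m
      have h3 : (v m).map (algebraMap k K) = 0 := congrFun h m
      exact (Polynomial.map_eq_zero _).1 h3
    · intro a b c
      have h3 := mem_SB hG.toKOps hW ![q a, q b, q c]
      convert h3 using 2
      funext m
      fin_cases m <;> rfl
  · refine QB.mem_nd h2 hG _ ?_
    rw [Mq_map, ← RingHom.map_det]
    intro h
    exact hd ((Polynomial.map_eq_zero _).1 h)

/-- **(C3)** families over finite fields, no hypothesis on the rank -/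
theorem cb_fin [IsAlgClosed K] (h2 : (2 : K) ≠ 0) (hG : GOps K G) {k : Type} [Field k] [Finite k]
    [Algebra k K] (hW : Cst k G) (F₀ F₁ F₂ : MvPolynomial (Fin 3) k) (h₀ : F₀.IsHomogeneous 2)
    (h₁ : F₁.IsHomogeneous 2) (h₂ : F₂.IsHomogeneous 2) (i j : ℕ) (c : k) :
    (CB (MvPolynomial.map (algebraMap k K) F₀) (MvPolynomial.map (algebraMap k K) F₁)
      (MvPolynomial.map (algebraMap k K) F₂) i j (algebraMap k K c)).Mem G := by
  obtain ⟨a, ha⟩ := Pool.Agent.Helper71.CQ.exists_qf h₀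
  obtain ⟨b, hb⟩ := Pool.Agent.Helper71.CQ.exists_qf h₁
  obtain ⟨d, hd⟩ := Pool.Agent.Helper71.CQ.exists_qf h₂
  have key : ∀ (F : MvPolynomial (Fin 3) k) (a : Fin 6 → k),
      (∀ (R : Type) [CommRing R] [Algebra k R] (x : Fin 3 → R),
        MvPolynomial.aeval x F = qf a (x 0) (x 1) (x 2)) →
      ∀ (R : Type) [CommRing R] [Algebra K R] (x y z : R),
        ev (MvPolynomial.map (algebraMap k K) F) x y z =
          qf (fun m => algebraMap k K (a m)) x y z := by
    intro F a ha R _ _ x y z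
    let _ := rs k K R
    have _ : IsScalarTower k K R := IsScalarTower.of_algebraMap_eq fun _ => rfl
    have h3 : MvPolynomial.aeval ![x, y, z] (MvPolynomial.map (algebraMap k K) F) =
        MvPolynomial.aeval ![x, y, z] F := MvPolynomial.aeval_map_algebraMap K ![x, y, z] F
    exact h3.trans (ha R ![x, y, z])
  refine CB.of_QB hG _ _ _ i j _ _ ?_ (QB.mem_fin h2 hG hW (cq a b d i j c))
  intro R _ _ t x y z
  have h4 : (fun m => (cq a b d i j c m).map (algebraMap k K)) =
      cq (fun m => algebraMap k K (a m)) (fun m => algebraMap k K (b m))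
        (fun m => algebraMap k K (d m)) i j (algebraMap k K c) := by
    funext m
    simp [cq]
  rw [h4, tq_cq, key F₀ a ha, key F₁ b hb, key F₂ d hd]

end Pool.Agent.Helper11.TP
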