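import Pool.Agent.Helper11.TP.QBMain

/-!
# Cones over conic bundles over the line: the nondegenerate case
-/

set_option autoImplicit false

namespace Pool.Agent.Helper11.TP

open Pool.Agent.Helper29.CQ Pool.Agent.Helper65.CC Pool.Agent.Helper87.CC
  Pool.Agent.Helper65.CC.KFn
open Pool.Agent.Helper9.QP (A4)
open Pool.Agent.Helper9.TP (CB InvB)
open Pool.Agent.Helper71.CP (ev)
open Polynomial

variable {K : Type} [Field K] {G : ∀ (R : Type) [CommRing R] [Algebra K R], Prop}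

/-- the matrix of the polar form -/
noncomputable def Mq {R : Type} [CommRing R] (q : Fin 6 → R) : Matrix (Fin 3) (Fin 3) R :=
  !![2 * q 0, q 1, q 3; q 1, 2 * q 2, q 4; q 3, q 4, 2 * q 5]

theorem Mq_mulVec (q : Fin 6 → K[X]) (v : Fin 3 → K[X]) : (Mq q).mulVec v = pL q v := by
  funext i
  fin_cases i <;> simp [Mq, pL, Matrix.mulVec, dotProduct, Fin.sum_univ_three]

theorem two_ne (h2 : (2 : K) ≠ 0) : (2 : K[X]) ≠ 0 := by
  intro h
  apply h2
  have h3 := congrArg (coeff · 0) h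
  simpa using h3

/-- vectors in the radical are isotropic -/
theorem isot_of_rad (h2 : (2 : K) ≠ 0) {q : Fin 6 → K[X]} {v : Fin 3 → K[X]}
    (h : pL q v = 0) : Isot q v := by
  have h0 : 2 * q 0 * v 0 + q 1 * v 1 + q 3 * v 2 = 0 := congrFun h 0
  have h1 : q 1 * v 0 + 2 * q 2 * v 1 + q 4 * v 2 = 0 := congrFun h 1
  have h3 : q 3 * v 0 + q 4 * v 1 + 2 * q 5 * v 2 = 0 := congrFun h 2
  have h4 : 2 * te (q 0) (q 1) (q 2) (q 3) (q 4) (q 5) (v 0) (v 1) (v 2) = 0 := by
    unfold te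
    linear_combination v 0 * h0 + v 1 * h1 + v 2 * h3
  exact (mul_eq_zero.1 h4).resolve_left (two_ne h2)

/-- **nondegenerate families** -/
theorem QB.mem_nd [IsAlgClosed K] (h2 : (2 : K) ≠ 0) (hG : GOps K G) (q : Fin 6 → K[X])
    (hq : (Mq q).det ≠ 0) : (QB q).Mem G := by
  obtain ⟨x, y, z, h0, h1⟩ := exists_isotropic h2 (q 0) (q 1) (q 2) (q 3) (q 4) (q 5)
  set v : Fin 3 → K[X] := ![x, y, z] with hv
  have hi : Isot q v := h1
  have hv0 : v ≠ 0 := by
    intro h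
    have e0 : x = 0 := congrFun h 0
    have e1 : y = 0 := congrFun h 1
    have e2 : z = 0 := congrFun h 2
    tauto
  have hL : pL q v ≠ 0 := by
    intro h
    apply hq
    rw [← Matrix.exists_mulVec_eq_zero_iff]
    exact ⟨v, hv0, by rw [Mq_mulVec, h]⟩
  have hdot := pL_dot hi
  have hL' : pL q v 0 ≠ 0 ∨ pL q v 1 ≠ 0 ∨ pL q v 2 ≠ 0 := by
    by_contra hcon
    push Not at hcon
    apply hL
    funext i
    fin_cases i
    · exact hcon.1
    · exact hcon.2.1
    · exact hcon.2.2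
  have hv' : v 0 ≠ 0 ∨ v 1 ≠ 0 ∨ v 2 ≠ 0 := h0
  -- there are different indices with nonzero coordinates
  have hpair : (v 2 ≠ 0 ∧ pL q v 0 ≠ 0) ∨ (v 2 ≠ 0 ∧ pL q v 1 ≠ 0) ∨
      (v 1 ≠ 0 ∧ pL q v 0 ≠ 0) ∨ (v 1 ≠ 0 ∧ pL q v 2 ≠ 0) ∨
      (v 0 ≠ 0 ∧ pL q v 1 ≠ 0) ∨ (v 0 ≠ 0 ∧ pL q v 2 ≠ 0) := by
    by_contra hcon
    push Not at hcon
    obtain ⟨c1, c2, c3, c4, c5, c6⟩ := hcon
    have fin : pL q v 0 = 0 → pL q v 1 = 0 → pL q v 2 = 0 → False := fun e0 e1 e2 =>
      hL'.elim (fun g => g e0) (fun g => g.elim (fun g => g e1) (fun g => g e2))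
    rcases hv' with h | h | h
    · have e1 := c5 h
      have e2 := c6 h
      rw [e1, e2, zero_mul, zero_mul, add_zero, add_zero] at hdot
      exact fin ((mul_eq_zero.1 hdot).resolve_right h) e1 e2
    · have e1 := c3 h
      have e2 := c4 h
      rw [e1, e2, zero_mul, zero_mul, zero_add, add_zero] at hdot
      exact fin e1 ((mul_eq_zero.1 hdot).resolve_right h) e2
    · have e1 := c1 h
      have e2 := c2 h
      rw [e1, e2, zero_mul, zero_mul, zero_add, zero_add] at hdot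
      exact fin e1 e2 ((mul_eq_zero.1 hdot).resolve_right h)
  rcases hpair with ⟨a, b⟩ | ⟨a, b⟩ | ⟨a, b⟩ | ⟨a, b⟩ | ⟨a, b⟩ | ⟨a, b⟩
  · exact QB.mem_aux hG q v hi a b
  · -- exchange x and y
    refine Mem.of_iso (QB.sxy q) (QB.mem_aux hG _ ![v 1, v 0, v 2] ?_ a ?_)
    · change te (q 2) (q 1) (q 0) (q 4) (q 3) (q 5) (v 1) (v 0) (v 2) = 0
      unfold Isot te at hi
      unfold te
      linear_combination hi
    · change 2 * q 2 * v 1 + q 1 * v 0 + q 4 * v 2 ≠ 0
      change q 1 * v 0 + 2 * q 2 * v 1 + q 4 * v 2 ≠ 0 at b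
      convert b using 1
      ring
  · -- exchange y and z
    refine Mem.of_iso (QB.syz q) (QB.mem_aux hG _ ![v 0, v 2, v 1] ?_ a ?_)
    · change te (q 0) (q 3) (q 5) (q 1) (q 4) (q 2) (v 0) (v 2) (v 1) = 0
      unfold Isot te at hi
      unfold te
      linear_combination hi
    · change 2 * q 0 * v 0 + q 3 * v 2 + q 1 * v 1 ≠ 0
      change 2 * q 0 * v 0 + q 1 * v 1 + q 3 * v 2 ≠ 0 at b
      convert b using 1
      ring
  · -- y has to go to the third, z to the first place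
    refine Mem.of_iso (QB.syz q) (Mem.of_iso (QB.sxy _)
      (QB.mem_aux hG _ ![v 2, v 0, v 1] ?_ a ?_))
    · change te (q 5) (q 3) (q 0) (q 4) (q 1) (q 2) (v 2) (v 0) (v 1) = 0
      unfold Isot te at hi
      unfold te
      linear_combination hi
    · change 2 * q 5 * v 2 + q 3 * v 0 + q 4 * v 1 ≠ 0
      change q 3 * v 0 + q 4 * v 1 + 2 * q 5 * v 2 ≠ 0 at b
      convert b using 1
      ring
  · -- x has to go to the third, y to the first place
    refine Mem.of_iso (QB.sxz q) (Mem.of_iso (QB.sxy _)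
      (QB.mem_aux hG _ ![v 1, v 2, v 0] ?_ a ?_))
    · change te (q 2) (q 4) (q 5) (q 1) (q 3) (q 0) (v 1) (v 2) (v 0) = 0
      unfold Isot te at hi
      unfold te
      linear_combination hi
    · change 2 * q 2 * v 1 + q 4 * v 2 + q 1 * v 0 ≠ 0
      change q 1 * v 0 + 2 * q 2 * v 1 + q 4 * v 2 ≠ 0 at b
      convert b using 1
      ring
  · -- exchange x and z
    refine Mem.of_iso (QB.sxz q) (QB.mem_aux hG _ ![v 2, v 1, v 0] ?_ a ?_)
    · change te (q 5) (q 4) (q 2) (q 3) (q 1) (q 0) (v 2) (v 1) (v 0) = 0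
      unfold Isot te at hi
      unfold te
      linear_combination hi
    · change 2 * q 5 * v 2 + q 4 * v 1 + q 3 * v 0 ≠ 0
      change q 3 * v 0 + q 4 * v 1 + 2 * q 5 * v 2 ≠ 0 at b
      convert b using 1
      ring

/-! ### The family of the three conics -/

/-- the coefficients of the family -/
noncomputable def cq (a b d : Fin 6 → K) (i j : ℕ) (c : K) : Fin 6 → K[X] := fun m =>
  C (a m) - X ^ j * C (b m) + C c * X ^ (i + j) * C (d m)

theorem aeval_cq (a b d : Fin 6 → K) (i j : ℕ) (c : K) (m : Fin 6) {R : Type} [CommRing R]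
    [Algebra K R] (t : R) : aeval t (cq a b d i j c m) = algebraMap K R (a m) -
      t ^ j * algebraMap K R (b m) + algebraMap K R c * t ^ (i + j) * algebraMap K R (d m) := by
  simp only [cq, map_add, map_sub, map_mul, map_pow, aeval_C, aeval_X]

theorem tq_cq (a b d : Fin 6 → K) (i j : ℕ) (c : K) {R : Type} [CommRing R]
    [Algebra K R] (t x y z : R) : tq (cq a b d i j c) t x y z =
      qf a x y z - t ^ j * qf b x y z + algebraMap K R c * t ^ (i + j) * qf d x y z := by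
  unfold tq te qf
  simp only [aeval_cq]
  ring

/-- the cone over the bundle is in the class if the family over the line is -/
theorem CB.of_QB [IsAlgClosed K] (hG : GOps K G) (F₀ F₁ F₂ : MvPolynomial (Fin 3) K)
    (i j : ℕ) (c : K) (q : Fin 6 → K[X])
    (hq : ∀ (R : Type) [CommRing R] [Algebra K R] (t x y z : R), tq q t x y z =
      ev F₀ x y z - t ^ j * ev F₁ x y z + algebraMap K R c * t ^ (i + j) * ev F₂ x y z)
    (h : (QB q).Mem G) : (CB F₀ F₁ F₂ i j c).Mem G := by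
  refine Mem.of_iso ?_ (mem_opn_poly hG.toKOps (QB q) (QB.r q) X X_ne_zero h (QB.fib hG q))
  exact
    { hom := fun {R} _ _ x => ⟨⟨x.1.1, (hq R _ _ _ _).trans x.1.2⟩, by
        have h1 : IsUnit x.1.1.2.2.2 := x.2
        change IsUnit (aeval x.1.1.2.2.2 (X : K[X]))
        rw [aeval_X]
        exact h1⟩
      inv := fun {R} _ _ x => ⟨⟨x.1.1, (hq R _ _ _ _).symm.trans x.1.2⟩, by
        have h1 : IsUnit (aeval x.1.1.2.2.2 (X : K[X])) := x.2
        rw [aeval_X] at h1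
        exact h1⟩
      inv_hom := fun _ => rfl
      hom_inv := fun _ => rfl
      nat := fun _ _ => rfl }

theorem ev_qf {F : MvPolynomial (Fin 3) K} {a : Fin 6 → K}
    (ha : ∀ (R : Type) [CommRing R] [Algebra K R] (x : Fin 3 → R),
      MvPolynomial.aeval x F = qf a (x 0) (x 1) (x 2)) (R : Type) [CommRing R] [Algebra K R]
    (x y z : R) : ev F x y z = qf a x y z := ha R ![x, y, z]

/-- **(C2)** the generic fibre is a smooth conic -/
theorem cb_nd [IsAlgClosed K] (h2 : (2 : K) ≠ 0) (hG : GOps K G)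
    (F₀ F₁ F₂ : MvPolynomial (Fin 3) K) (h₀ : F₀.IsHomogeneous 2) (h₁ : F₁.IsHomogeneous 2)
    (h₂ : F₂.IsHomogeneous 2) (i j : ℕ) (c : K)
    (h : ∀ v : Fin 3 → Polynomial K, v ≠ 0 → ¬ InvB F₀ F₁ F₂ i j c v) :
    (CB F₀ F₁ F₂ i j c).Mem G := by
  obtain ⟨a, ha⟩ := Pool.Agent.Helper71.CQ.exists_qf h₀
  obtain ⟨b, hb⟩ := Pool.Agent.Helper71.CQ.exists_qf h₁
  obtain ⟨d, hd⟩ := Pool.Agent.Helper71.CQ.exists_qf h₂
  have hq : ∀ (R : Type) [CommRing R] [Algebra K R] (t x y z : R),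
      tq (cq a b d i j c) t x y z =
      ev F₀ x y z - t ^ j * ev F₁ x y z + algebraMap K R c * t ^ (i + j) * ev F₂ x y z := by
    intro R _ _ t x y z
    rw [tq_cq, ev_qf ha, ev_qf hb, ev_qf hd]
  refine CB.of_QB hG F₀ F₁ F₂ i j c (cq a b d i j c) hq (QB.mem_nd h2 hG _ ?_)
  intro hdet
  rw [← Matrix.exists_mulVec_eq_zero_iff] at hdet
  obtain ⟨v, hv, hMv⟩ := hdet
  rw [Mq_mulVec] at hMv
  refine h v hv ?_
  intro R _ _ x y z r t
  rw [← hq, ← hq, tq_add (isot_of_rad h2 hMv), hMv]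
  simp only [Pi.zero_apply, map_zero, zero_mul, add_zero, mul_zero]

end Pool.Agent.Helper11.TP
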