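import Pool.Agent.Helper11.TP.Tsen
import Pool.Agent.Helper9.TP.Defs2
import Pool.Agent.Helper49.TP.Bin
import Pool.Agent.Helper71.CQ.Decomp

/-!
# Cones over conic bundles over the line
-/

set_option autoImplicit false

namespace Pool.Agent.Helper11.TP

open Pool.Agent.Helper29.CQ Pool.Agent.Helper65.CC Pool.Agent.Helper87.CC
  Pool.Agent.Helper65.CC.KFn
open Pool.Agent.Helper9.QP (A4)
open Pool.Agent.Helper9.TP (CB InvB)
open Pool.Agent.Helper71.CP (ev)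
open Pool.Agent.Helper71.PN (Sc D1 PC)
open Pool.Agent.Helper49.CP (scCls)
open Pool.Agent.Helper49.TP (mem_A2_cls mem_cls_zero Hom2)
open Polynomial

variable {K : Type} [Field K] {G : ∀ (R : Type) [CommRing R] [Algebra K R], Prop}

/-- ternary quadratic forms -/
def te {R : Type} [CommRing R] (a b c d e g x y z : R) : R :=
  a * x ^ 2 + b * (x * y) + c * y ^ 2 + d * (x * z) + e * (y * z) + g * z ^ 2

/-- the family of cones over the line -/
noncomputable def QB (q : Fin 6 → K[X]) : KFn K :=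
  (A4 K).cls ⟨fun {R} _ _ x => te (aeval x.2.2.2 (q 0)) (aeval x.2.2.2 (q 1))
    (aeval x.2.2.2 (q 2)) (aeval x.2.2.2 (q 3)) (aeval x.2.2.2 (q 4)) (aeval x.2.2.2 (q 5))
    x.1 x.2.1 x.2.2.1, fun f x => by
    simp only [te, map_add, map_mul, map_pow, ← aeval_algHom_apply]
    rfl⟩

noncomputable instance (q : Fin 6 → K[X]) : Rp (QB q) := by
  unfold QB
  infer_instance

/-- the coordinate of the base -/
noncomputable def QB.r (q : Fin 6 → K[X]) : Coord (QB q) := ⟨fun x => x.1.2.2.2, fun _ _ => rfl⟩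

/-! ### The fibres -/

/-- the cone over a conic -/
def QC (c : Fin 6 → K) : KFn K :=
  (A3 K).cls ⟨fun x => qf c x.1 x.2.1 x.2.2, fun f x => by
    simp only [qf, map_add, map_mul, map_pow, AlgHom.commutes]
    rfl⟩

instance (c : Fin 6 → K) : Rp (QC c) := by
  unfold QC
  infer_instance

/-- the scaling of the space -/
def A3s : Sc (A3 K) where
  sc u x := (u * x.1, u * x.2.1, u * x.2.2)
  one _ := Prod.ext (one_mul _) (Prod.ext (one_mul _) (one_mul _))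
  mul _ _ _ := Prod.ext (mul_assoc _ _ _) (Prod.ext (mul_assoc _ _ _) (mul_assoc _ _ _))
  nat f _ _ := Prod.ext (map_mul f _ _) (Prod.ext (map_mul f _ _) (map_mul f _ _))

theorem mem_QC [IsAlgClosed K] (hG : GOps K G) (c : Fin 6 → K) : (QC c).Mem G := by
  let z : Coord (QC c) := ⟨fun x => x.1.2.2, fun _ _ => rfl⟩
  let w : Coord (A2 K) := ⟨fun x => qf c x.1 x.2 0, fun f x => by
    simp only [qf, map_add, map_mul, map_pow, AlgHom.commutes, map_zero]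
    rfl⟩
  refine (scCls A3s _ 2 fun {R} _ _ t x => ?_).mem hG.toKOps z (fun _ _ => rfl)
    (Mem.of_iso ?_ (mem_pconic hG c)) (Mem.of_iso ?_ (mem_A2_cls hG w (m := 2) ?_))
  · change qf c (t * x.1) (t * x.2.1) (t * x.2.2) = _
    simp only [qf]
    ring
  · exact
      { hom := fun {R} _ _ p => ⟨(p.1.1.1, p.1.1.2.1), by
          have h1 : qf c p.1.1.1 p.1.1.2.1 p.1.1.2.2 = 0 := p.1.2
          have h2 : p.1.1.2.2 - algebraMap K R 1 = 0 := p.2
          rw [sub_eq_zero.1 h2, map_one] at h1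
          exact h1⟩
        inv := fun {R} _ _ y => ⟨⟨(y.1.1, y.1.2, 1), y.2⟩, by
          change (1 : R) - algebraMap K R 1 = 0
          rw [map_one, sub_self]⟩
        inv_hom := fun {R} _ _ p => by
          have h2 : p.1.1.2.2 - algebraMap K R 1 = 0 := p.2
          rw [map_one] at h2
          exact Subtype.ext (Subtype.ext (Prod.ext rfl (Prod.ext rfl (sub_eq_zero.1 h2).symm)))
        hom_inv := fun _ => rfl
        nat := fun _ _ => rfl }
  · exact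
      { hom := fun {R} _ _ p => ⟨(p.1.1.1, p.1.1.2.1), by
          have h1 : qf c p.1.1.1 p.1.1.2.1 p.1.1.2.2 = 0 := p.1.2
          have h2 : p.1.1.2.2 = 0 := p.2
          rw [h2] at h1
          exact h1⟩
        inv := fun {R} _ _ y => ⟨⟨(y.1.1, y.1.2, 0), y.2⟩, rfl⟩
        inv_hom := fun {R} _ _ p => by
          have h2 : p.1.1.2.2 = 0 := p.2
          exact Subtype.ext (Subtype.ext (Prod.ext rfl (Prod.ext rfl h2.symm)))
        hom_inv := fun _ => rfl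
        nat := fun f _ => Subtype.ext (Prod.ext rfl rfl) }
  · intro R _ _ t x y
    change qf c (t * x) (t * y) 0 = t ^ 2 * qf c x y 0
    simp only [qf]
    ring

theorem QB.fib [IsAlgClosed K] (hG : GOps K G) (q : Fin 6 → K[X]) (s : K) :
    ((QB q).cls (subC (QB.r q) s)).Mem G := by
  refine Mem.of_iso (F' := QC (fun i => (q i).eval s)) ?_ (mem_QC hG _)
  have key : ∀ (R : Type) [CommRing R] [Algebra K R] (t x y z : R), t - algebraMap K R s = 0 →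
      te (aeval t (q 0)) (aeval t (q 1)) (aeval t (q 2))
        (aeval t (q 3)) (aeval t (q 4)) (aeval t (q 5)) x y z =
      qf (fun i => (q i).eval s) x y z := by
    intro R _ _ t x y z h
    rw [sub_eq_zero.1 h]
    simp only [aeval_algebraMap_apply, coe_aeval_eq_eval, te, qf]
  exact
    { hom := fun {R} _ _ x => ⟨(x.1.1.1, x.1.1.2.1, x.1.1.2.2.1),
        (key R _ _ _ _ x.2).symm.trans x.1.2⟩
      inv := fun {R} _ _ y => ⟨⟨(y.1.1, y.1.2.1, y.1.2.2, algebraMap K R s),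
        (key R _ _ _ _ (sub_self _)).trans y.2⟩, sub_self _⟩
      inv_hom := fun {R} _ _ x => by
        have h1 : x.1.1.2.2.2 - algebraMap K R s = 0 := x.2
        exact Subtype.ext (Subtype.ext (Prod.ext rfl (Prod.ext rfl (Prod.ext rfl
          (sub_eq_zero.1 h1).symm))))
      hom_inv := fun _ => rfl
      nat := fun _ _ => rfl }

/-! ### Permutations -/

/-- exchanging `x` and `y` -/
noncomputable def QB.sxy (q : Fin 6 → K[X]) :
    Iso (QB q) (QB ![q 2, q 1, q 0, q 4, q 3, q 5]) where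
  hom {R} _ _ x := ⟨(x.1.2.1, x.1.1, x.1.2.2.1, x.1.2.2.2), by
    refine Eq.trans ?_ x.2
    change te (aeval x.1.2.2.2 (q 2)) (aeval x.1.2.2.2 (q 1)) (aeval x.1.2.2.2 (q 0))
      (aeval x.1.2.2.2 (q 4)) (aeval x.1.2.2.2 (q 3)) (aeval x.1.2.2.2 (q 5)) x.1.2.1 x.1.1
      x.1.2.2.1 = te (aeval x.1.2.2.2 (q 0)) (aeval x.1.2.2.2 (q 1)) (aeval x.1.2.2.2 (q 2))
      (aeval x.1.2.2.2 (q 3)) (aeval x.1.2.2.2 (q 4)) (aeval x.1.2.2.2 (q 5)) x.1.1 x.1.2.1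
      x.1.2.2.1
    unfold te
    ring⟩
  inv {R} _ _ x := ⟨(x.1.2.1, x.1.1, x.1.2.2.1, x.1.2.2.2), by
    refine Eq.trans ?_ x.2
    change te (aeval x.1.2.2.2 (q 0)) (aeval x.1.2.2.2 (q 1)) (aeval x.1.2.2.2 (q 2))
      (aeval x.1.2.2.2 (q 3)) (aeval x.1.2.2.2 (q 4)) (aeval x.1.2.2.2 (q 5)) x.1.2.1 x.1.1
      x.1.2.2.1 = te (aeval x.1.2.2.2 (q 2)) (aeval x.1.2.2.2 (q 1)) (aeval x.1.2.2.2 (q 0))
      (aeval x.1.2.2.2 (q 4)) (aeval x.1.2.2.2 (q 3)) (aeval x.1.2.2.2 (q 5)) x.1.1 x.1.2.1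
      x.1.2.2.1
    unfold te
    ring⟩
  inv_hom _ := rfl
  hom_inv _ := rfl
  nat _ _ := rfl

/-- exchanging `x` and `z` -/
noncomputable def QB.sxz (q : Fin 6 → K[X]) :
    Iso (QB q) (QB ![q 5, q 4, q 2, q 3, q 1, q 0]) where
  hom {R} _ _ x := ⟨(x.1.2.2.1, x.1.2.1, x.1.1, x.1.2.2.2), by
    refine Eq.trans ?_ x.2
    change te (aeval x.1.2.2.2 (q 5)) (aeval x.1.2.2.2 (q 4)) (aeval x.1.2.2.2 (q 2))
      (aeval x.1.2.2.2 (q 3)) (aeval x.1.2.2.2 (q 1)) (aeval x.1.2.2.2 (q 0)) x.1.2.2.1 x.1.2.1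
      x.1.1 = te (aeval x.1.2.2.2 (q 0)) (aeval x.1.2.2.2 (q 1)) (aeval x.1.2.2.2 (q 2))
      (aeval x.1.2.2.2 (q 3)) (aeval x.1.2.2.2 (q 4)) (aeval x.1.2.2.2 (q 5)) x.1.1 x.1.2.1
      x.1.2.2.1
    unfold te
    ring⟩
  inv {R} _ _ x := ⟨(x.1.2.2.1, x.1.2.1, x.1.1, x.1.2.2.2), by
    refine Eq.trans ?_ x.2
    change te (aeval x.1.2.2.2 (q 0)) (aeval x.1.2.2.2 (q 1)) (aeval x.1.2.2.2 (q 2))
      (aeval x.1.2.2.2 (q 3)) (aeval x.1.2.2.2 (q 4)) (aeval x.1.2.2.2 (q 5)) x.1.2.2.1 x.1.2.1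
      x.1.1 = te (aeval x.1.2.2.2 (q 5)) (aeval x.1.2.2.2 (q 4)) (aeval x.1.2.2.2 (q 2))
      (aeval x.1.2.2.2 (q 3)) (aeval x.1.2.2.2 (q 1)) (aeval x.1.2.2.2 (q 0)) x.1.1 x.1.2.1
      x.1.2.2.1
    unfold te
    ring⟩
  inv_hom _ := rfl
  hom_inv _ := rfl
  nat _ _ := rfl

/-- exchanging `y` and `z` -/
noncomputable def QB.syz (q : Fin 6 → K[X]) :
    Iso (QB q) (QB ![q 0, q 3, q 5, q 1, q 4, q 2]) where
  hom {R} _ _ x := ⟨(x.1.1, x.1.2.2.1, x.1.2.1, x.1.2.2.2), by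
    refine Eq.trans ?_ x.2
    change te (aeval x.1.2.2.2 (q 0)) (aeval x.1.2.2.2 (q 3)) (aeval x.1.2.2.2 (q 5))
      (aeval x.1.2.2.2 (q 1)) (aeval x.1.2.2.2 (q 4)) (aeval x.1.2.2.2 (q 2)) x.1.1 x.1.2.2.1
      x.1.2.1 = te (aeval x.1.2.2.2 (q 0)) (aeval x.1.2.2.2 (q 1)) (aeval x.1.2.2.2 (q 2))
      (aeval x.1.2.2.2 (q 3)) (aeval x.1.2.2.2 (q 4)) (aeval x.1.2.2.2 (q 5)) x.1.1 x.1.2.1
      x.1.2.2.1
    unfold te
    ring⟩
  inv {R} _ _ x := ⟨(x.1.1, x.1.2.2.1, x.1.2.1, x.1.2.2.2), by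
    refine Eq.trans ?_ x.2
    change te (aeval x.1.2.2.2 (q 0)) (aeval x.1.2.2.2 (q 1)) (aeval x.1.2.2.2 (q 2))
      (aeval x.1.2.2.2 (q 3)) (aeval x.1.2.2.2 (q 4)) (aeval x.1.2.2.2 (q 5)) x.1.1 x.1.2.2.1
      x.1.2.1 = te (aeval x.1.2.2.2 (q 0)) (aeval x.1.2.2.2 (q 3)) (aeval x.1.2.2.2 (q 5))
      (aeval x.1.2.2.2 (q 1)) (aeval x.1.2.2.2 (q 4)) (aeval x.1.2.2.2 (q 2)) x.1.1 x.1.2.1
      x.1.2.2.1
    unfold te
    ring⟩
  inv_hom _ := rfl
  hom_inv _ := rfl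
  nat _ _ := rfl

/-! ### Isotropic vectors -/

/-- every ternary quadratic form over `K[r]` has a nontrivial zero -/
theorem exists_isotropic [IsAlgClosed K] (h2 : (2 : K) ≠ 0) (a b c d e g : K[X]) :
    ∃ x y z : K[X], (x ≠ 0 ∨ y ≠ 0 ∨ z ≠ 0) ∧ te a b c d e g x y z = 0 := by
  have h2' : (2 : K[X]) ≠ 0 := by
    intro h
    apply h2
    have h3 := congrArg (coeff · 0) h
    simpa using h3
  by_cases ha : a = 0
  · exact ⟨1, 0, 0, Or.inl one_ne_zero, by rw [ha]; unfold te; ring⟩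
  -- the binary form
  have h4 : (4 : K[X]) ≠ 0 := by
    have h5 := mul_ne_zero h2' h2'
    norm_num at h5
    exact h5
  obtain ⟨A, hA⟩ : ∃ A, A = b ^ 2 - 4 * a * c := ⟨_, rfl⟩
  obtain ⟨B, hB⟩ : ∃ B, B = 2 * b * d - 4 * a * e := ⟨_, rfl⟩
  obtain ⟨C', hC⟩ : ∃ C', C' = d ^ 2 - 4 * a * g := ⟨_, rfl⟩
  have sq : ∀ x y z : K[X], 4 * a * te a b c d e g x y z =
      (2 * a * x + b * y + d * z) ^ 2 - (A * y ^ 2 + B * (y * z) + C' * z ^ 2) := by
    intro x y z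
    rw [hA, hB, hC]
    unfold te
    ring
  have cancel : ∀ x y z : K[X],
      (2 * a * x + b * y + d * z) ^ 2 - (A * y ^ 2 + B * (y * z) + C' * z ^ 2) = 0 →
      te a b c d e g x y z = 0 := by
    intro x y z h
    rw [← sq] at h
    rcases mul_eq_zero.1 h with h | h
    · exact absurd h (mul_ne_zero h4 ha)
    · exact h
  by_cases hA0 : A = 0
  · refine ⟨-b, 2 * a, 0, Or.inr (Or.inl (mul_ne_zero h2' ha)), cancel _ _ _ ?_⟩
    rw [hA0]
    ring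
  obtain ⟨D, hD⟩ : ∃ D, D = B ^ 2 - 4 * A * C' := ⟨_, rfl⟩
  have key : ∀ X₁ Y₁ z : K[X], Y₁ ^ 2 = 4 * A * X₁ ^ 2 + D * z ^ 2 →
      te a b c d e g (2 * A * X₁ - b * (Y₁ - B * z) - 2 * A * d * z) (2 * a * (Y₁ - B * z))
        (4 * a * A * z) = 0 := by
    intro X₁ Y₁ z h
    apply cancel
    rw [hD] at h
    linear_combination (-4 * a ^ 2 * A) * h
  by_cases hD0 : D = 0
  · refine ⟨_, _, _, Or.inr (Or.inr ?_), key 0 0 1 ?_⟩
    · rw [mul_one]
      exact mul_ne_zero (mul_ne_zero h4 ha) hA0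
    · rw [hD0]
      ring
  · obtain ⟨Y₁, X₁, z, h0, h1⟩ := tsen (4 * A) D (mul_ne_zero h4 hA0) hD0
    refine ⟨_, _, _, ?_, key X₁ Y₁ z h1⟩
    by_contra hcon
    push Not at hcon
    obtain ⟨e1, e2, e3⟩ := hcon
    have hz : z = 0 := by
      rcases mul_eq_zero.1 e3 with h | h
      · exact absurd h (mul_ne_zero (mul_ne_zero h4 ha) hA0)
      · exact h
    subst hz
    have hY : Y₁ = 0 := by
      rw [mul_zero, sub_zero] at e2
      rcases mul_eq_zero.1 e2 with h | h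
      · exact absurd h (mul_ne_zero h2' ha)
      · exact h
    subst hY
    have hX : X₁ = 0 := by
      have e4 : 2 * A * X₁ = 0 := by
        rw [← e1]
        ring
      rcases mul_eq_zero.1 e4 with h | h
      · exact absurd h (mul_ne_zero h2' hA0)
      · exact h
    subst hX
    tauto

end Pool.Agent.Helper11.TP
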