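import Pool.Agent.Helper11.TP.QB

/-!
# Cones over conic bundles over the line: projection from an isotropic vector
-/

set_option autoImplicit false

namespace Pool.Agent.Helper11.TP

open Pool.Agent.Helper29.CQ Pool.Agent.Helper65.CC Pool.Agent.Helper87.CC
  Pool.Agent.Helper65.CC.KFn
open Pool.Agent.Helper9.QP (A4)
open Pool.Agent.Helper9.TP (CB InvB)
open Pool.Agent.Helper71.CP (ev)
open Pool.Agent.Helper71.PN (Sc D1 PC)
open Pool.Agent.Helper49.CP (scCls)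
open Pool.Agent.Helper49.TP (mem_A2_cls mem_cls_zero Hom2)
open Polynomial

variable {K : Type} [Field K] {G : ∀ (R : Type) [CommRing R] [Algebra K R], Prop}

/-- the value of the quadratic form -/
noncomputable def tq (q : Fin 6 → K[X]) {R : Type} [CommRing R] [Algebra K R] (t x y z : R) : R :=
  te (aeval t (q 0)) (aeval t (q 1)) (aeval t (q 2)) (aeval t (q 3)) (aeval t (q 4))
    (aeval t (q 5)) x y z

/-- the coefficients of the polar form of a vector -/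
noncomputable def pL (q : Fin 6 → K[X]) (v : Fin 3 → K[X]) : Fin 3 → K[X] :=
  ![2 * q 0 * v 0 + q 1 * v 1 + q 3 * v 2, q 1 * v 0 + 2 * q 2 * v 1 + q 4 * v 2,
    q 3 * v 0 + q 4 * v 1 + 2 * q 5 * v 2]

/-- isotropic vectors -/
def Isot (q : Fin 6 → K[X]) (v : Fin 3 → K[X]) : Prop :=
  te (q 0) (q 1) (q 2) (q 3) (q 4) (q 5) (v 0) (v 1) (v 2) = 0

section alg

variable {R : Type} [CommRing R] [Algebra K R] (q : Fin 6 → K[X]) (v : Fin 3 → K[X])

theorem Isot.aeval {q : Fin 6 → K[X]} {v : Fin 3 → K[X]} (h : Isot q v) (t : R) :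
    tq q t (aeval t (v 0)) (aeval t (v 1)) (aeval t (v 2)) = 0 := by
  have h1 := congrArg (Polynomial.aeval t) h
  simp only [te, map_add, map_mul, map_pow, map_zero] at h1
  exact h1

theorem aeval_pL0 (t : R) : aeval t (pL q v 0) = 2 * aeval t (q 0) * aeval t (v 0) +
    aeval t (q 1) * aeval t (v 1) + aeval t (q 3) * aeval t (v 2) := by
  change aeval t (2 * q 0 * v 0 + q 1 * v 1 + q 3 * v 2) = _
  simp only [map_add, map_mul, map_ofNat]

theorem aeval_pL1 (t : R) : aeval t (pL q v 1) = aeval t (q 1) * aeval t (v 0) +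
    2 * aeval t (q 2) * aeval t (v 1) + aeval t (q 4) * aeval t (v 2) := by
  change aeval t (q 1 * v 0 + 2 * q 2 * v 1 + q 4 * v 2) = _
  simp only [map_add, map_mul, map_ofNat]

theorem aeval_pL2 (t : R) : aeval t (pL q v 2) = aeval t (q 3) * aeval t (v 0) +
    aeval t (q 4) * aeval t (v 1) + 2 * aeval t (q 5) * aeval t (v 2) := by
  change aeval t (q 3 * v 0 + q 4 * v 1 + 2 * q 5 * v 2) = _
  simp only [map_add, map_mul, map_ofNat]

theorem pL_dot {q : Fin 6 → K[X]} {v : Fin 3 → K[X]} (h : Isot q v) :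
    pL q v 0 * v 0 + pL q v 1 * v 1 + pL q v 2 * v 2 = 0 := by
  change (2 * q 0 * v 0 + q 1 * v 1 + q 3 * v 2) * v 0 +
    (q 1 * v 0 + 2 * q 2 * v 1 + q 4 * v 2) * v 1 +
    (q 3 * v 0 + q 4 * v 1 + 2 * q 5 * v 2) * v 2 = 0
  unfold Isot te at h
  linear_combination 2 * h

/-- translations by an isotropic vector -/
theorem tq_add {q : Fin 6 → K[X]} {v : Fin 3 → K[X]} (h : Isot q v) (t x y z s : R) :
    tq q t (x + s * aeval t (v 0)) (y + s * aeval t (v 1)) (z + s * aeval t (v 2)) =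
      tq q t x y z + s * (aeval t (pL q v 0) * x + aeval t (pL q v 1) * y +
        aeval t (pL q v 2) * z) := by
  have h1 := h.aeval t
  rw [aeval_pL0, aeval_pL1, aeval_pL2]
  unfold tq te at h1 ⊢
  linear_combination s ^ 2 * h1

end alg

/-! ### Open parts of affine spaces -/

/-- the first coordinate -/
def A2.t (K : Type) [Field K] : Coord (A2 K) := ⟨fun x => x.1, fun _ _ => rfl⟩

/-- the first coordinate -/
def A3.t (K : Type) [Field K] : Coord (A3 K) := ⟨fun x => x.1, fun _ _ => rfl⟩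

theorem mem_A2_open [IsAlgClosed K] (hG : GOps K G) {h : K[X]} (h0 : h ≠ 0) :
    ((A2 K).opn (polyC (A2.t K) h)).Mem G := by
  refine mem_opn_poly hG.toKOps _ _ h h0 (mem_A2 hG) fun a => Mem.of_iso ?_ (mem_A1 hG)
  exact
    { hom := fun {R} _ _ x => x.1.2
      inv := fun {R} _ _ y => ⟨(algebraMap K R a, y), sub_self _⟩
      inv_hom := fun {R} _ _ x => by
        have h1 : x.1.1 - algebraMap K R a = 0 := x.2
        exact Subtype.ext (Prod.ext (sub_eq_zero.1 h1).symm rfl)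
      hom_inv := fun _ => rfl
      nat := fun _ _ => rfl }

theorem mem_A3_open [IsAlgClosed K] (hG : GOps K G) {h : K[X]} (h0 : h ≠ 0) :
    ((A3 K).opn (polyC (A3.t K) h)).Mem G := by
  refine mem_opn_poly hG.toKOps _ _ h h0 (mem_A3 hG) fun a => Mem.of_iso ?_ (mem_A2 hG)
  exact
    { hom := fun {R} _ _ x => x.1.2
      inv := fun {R} _ _ y => ⟨(algebraMap K R a, y), sub_self _⟩
      inv_hom := fun {R} _ _ x => by
        have h1 : x.1.1 - algebraMap K R a = 0 := x.2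
        exact Subtype.ext (Prod.ext (sub_eq_zero.1 h1).symm rfl)
      hom_inv := fun _ => rfl
      nat := fun _ _ => rfl }

/-- the part of the space where a linear form is a unit -/
theorem mem_lin_open [IsAlgClosed K] (hG : GOps K G) {h : K[X]} (h0 : h ≠ 0) (a b : K[X])
    (ha : ∀ (R : Type) [CommRing R] [Algebra K R] (t : R), IsUnit (aeval t h) →
      IsUnit (aeval t a)) (w : Coord ((A3 K).opn (polyC (A3.t K) h)))
    (hw : ∀ (R : Type) [CommRing R] [Algebra K R] (x : ((A3 K).opn (polyC (A3.t K) h)).obj R),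
      w.val x = aeval x.1.1 a * x.1.2.1 + aeval x.1.1 b * x.1.2.2) :
    (((A3 K).opn (polyC (A3.t K) h)).opn w).Mem G := by
  refine mem_opn hG.toKOps w (mem_A3_open hG h0) (Mem.of_iso ?_ (mem_A2_open hG h0))
  have key : ∀ (R : Type) [CommRing R] [Algebra K R]
      (x : (((A3 K).opn (polyC (A3.t K) h)).cls w).obj R),
      -(Ring.inverse (aeval x.1.1.1 a) * aeval x.1.1.1 b * x.1.1.2.2) = x.1.1.2.1 := by
    intro R _ _ x
    have h1 : w.val x.1 = 0 := x.2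
    rw [hw] at h1
    have h2 := mul_inv' (ha R _ x.1.2)
    change aeval x.1.1.1 a * Ring.inverse (aeval x.1.1.1 a) = 1 at h2
    linear_combination x.1.1.2.1 * h2 - Ring.inverse (aeval x.1.1.1 a) * h1
  exact
    { hom := fun {R} _ _ x => ⟨(x.1.1.1, x.1.1.2.2), x.1.2⟩
      inv := fun {R} _ _ y => ⟨⟨(y.1.1, -(Ring.inverse (aeval y.1.1 a) * aeval y.1.1 b * y.1.2),
        y.1.2), y.2⟩, by
        refine (hw R _).trans ?_
        change aeval y.1.1 a * -(Ring.inverse (aeval y.1.1 a) * aeval y.1.1 b * y.1.2) +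
          aeval y.1.1 b * y.1.2 = 0
        have h2 := mul_inv' (ha R _ y.2)
        change aeval y.1.1 a * Ring.inverse (aeval y.1.1 a) = 1 at h2
        linear_combination (-(aeval y.1.1 b * y.1.2)) * h2⟩
      inv_hom := fun {R} _ _ x => Subtype.ext (Subtype.ext (Prod.ext rfl
        (Prod.ext (key R x) rfl)))
      hom_inv := fun _ => rfl
      nat := fun _ _ => rfl }

/-! ### Projection from the isotropic vector -/

section proj

variable (q : Fin 6 → K[X]) (v : Fin 3 → K[X]) (h : K[X])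

/-- the open part over `h ≠ 0` -/
noncomputable abbrev QBo : KFn K := (QB q).opn (polyC (QB.r q) h)

/-- the polar form as a coordinate -/
noncomputable def QBo.l : Coord (QBo q h) where
  val x := aeval x.1.1.2.2.2 (pL q v 0) * x.1.1.1 + aeval x.1.1.2.2.2 (pL q v 1) * x.1.1.2.1 +
    aeval x.1.1.2.2.2 (pL q v 2) * x.1.1.2.2.1
  nat f x := by
    simp only [map_add, map_mul, ← aeval_algHom_apply]
    rfl

/-- the linear form -/
noncomputable def wl : Coord ((A3 K).opn (polyC (A3.t K) h)) where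
  val x := aeval x.1.1 (pL q v 0) * x.1.2.1 + aeval x.1.1 (pL q v 1) * x.1.2.2
  nat f x := by
    simp only [map_add, map_mul, ← aeval_algHom_apply]
    rfl

variable {q v h}

/-- the data of the projection -/
structure PD (q : Fin 6 → K[X]) (v : Fin 3 → K[X]) (h : K[X]) : Prop where
  iso : Isot q v
  u2 : ∀ (R : Type) [CommRing R] [Algebra K R] (t : R), IsUnit (aeval t h) →
    IsUnit (aeval t (v 2))

section

variable {R : Type} [CommRing R] [Algebra K R]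

/-- the polar form in the new coordinates -/
theorem PD.lin (D : PD q v h) {t : R} (ht : IsUnit (aeval t h)) (x y z : R) :
    aeval t (pL q v 0) * (x - z * Ring.inverse (aeval t (v 2)) * aeval t (v 0)) +
      aeval t (pL q v 1) * (y - z * Ring.inverse (aeval t (v 2)) * aeval t (v 1)) =
    aeval t (pL q v 0) * x + aeval t (pL q v 1) * y + aeval t (pL q v 2) * z := by
  have h2 := mul_inv' (D.u2 R t ht)
  have h3 := congrArg (aeval t) (pL_dot D.iso)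
  simp only [map_add, map_mul, map_zero] at h3
  linear_combination (-(z * Ring.inverse (aeval t (v 2)))) * h3 + (aeval t (pL q v 2) * z) * h2

/-- the form in the new coordinates -/
theorem PD.form (D : PD q v h) {t : R} (ht : IsUnit (aeval t h)) (x y z : R) :
    tq q t x y z = tq q t (x - z * Ring.inverse (aeval t (v 2)) * aeval t (v 0))
        (y - z * Ring.inverse (aeval t (v 2)) * aeval t (v 1)) 0 +
      z * Ring.inverse (aeval t (v 2)) * (aeval t (pL q v 0) * x + aeval t (pL q v 1) * y +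
        aeval t (pL q v 2) * z) := by
  have h2 := mul_inv' (D.u2 R t ht)
  rw [← D.lin ht]
  have h1 := tq_add D.iso t (x - z * Ring.inverse (aeval t (v 2)) * aeval t (v 0))
    (y - z * Ring.inverse (aeval t (v 2)) * aeval t (v 1)) 0
    (z * Ring.inverse (aeval t (v 2)))
  have e1 : x - z * Ring.inverse (aeval t (v 2)) * aeval t (v 0) +
    z * Ring.inverse (aeval t (v 2)) * aeval t (v 0) = x := by ring
  have e2 : y - z * Ring.inverse (aeval t (v 2)) * aeval t (v 1) +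
    z * Ring.inverse (aeval t (v 2)) * aeval t (v 1) = y := by ring
  have e3 : 0 + z * Ring.inverse (aeval t (v 2)) * aeval t (v 2) = z := by
    linear_combination z * h2
  rw [e1, e2, e3, mul_zero, add_zero] at h1
  exact h1

end

/-- the part where the polar form is a unit -/
noncomputable def isoP (D : PD q v h) :
    Iso ((QBo q h).opn (QBo.l q v h)) (((A3 K).opn (polyC (A3.t K) h)).opn (wl q v h)) where
  hom {R} _ _ x := ⟨⟨(x.1.1.1.2.2.2,
      x.1.1.1.1 - x.1.1.1.2.2.1 * Ring.inverse (aeval x.1.1.1.2.2.2 (v 2)) *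
        aeval x.1.1.1.2.2.2 (v 0),
      x.1.1.1.2.1 - x.1.1.1.2.2.1 * Ring.inverse (aeval x.1.1.1.2.2.2 (v 2)) *
        aeval x.1.1.1.2.2.2 (v 1)), x.1.2⟩, by
    have h1 := x.2
    change IsUnit (aeval x.1.1.1.2.2.2 (pL q v 0) * x.1.1.1.1 +
      aeval x.1.1.1.2.2.2 (pL q v 1) * x.1.1.1.2.1 +
      aeval x.1.1.1.2.2.2 (pL q v 2) * x.1.1.1.2.2.1) at h1
    have h2 := D.lin (t := x.1.1.1.2.2.2) x.1.2 x.1.1.1.1 x.1.1.1.2.1 x.1.1.1.2.2.1
    rw [← h2] at h1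
    exact h1⟩
  inv {R} _ _ y := ⟨⟨⟨(
      y.1.1.2.1 + -(tq q y.1.1.1 y.1.1.2.1 y.1.1.2.2 0 * Ring.inverse ((wl q v h).val y.1)) *
        aeval y.1.1.1 (v 0),
      y.1.1.2.2 + -(tq q y.1.1.1 y.1.1.2.1 y.1.1.2.2 0 * Ring.inverse ((wl q v h).val y.1)) *
        aeval y.1.1.1 (v 1),
      0 + -(tq q y.1.1.1 y.1.1.2.1 y.1.1.2.2 0 * Ring.inverse ((wl q v h).val y.1)) *
        aeval y.1.1.1 (v 2), y.1.1.1), by
      change tq q y.1.1.1 _ _ _ = 0
      rw [tq_add D.iso]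
      have h1 := mul_inv' y.2
      change (wl q v h).val y.1 * Ring.inverse ((wl q v h).val y.1) = 1 at h1
      have h2 : (wl q v h).val y.1 = aeval y.1.1.1 (pL q v 0) * y.1.1.2.1 +
        aeval y.1.1.1 (pL q v 1) * y.1.1.2.2 := rfl
      rw [mul_zero, add_zero, ← h2]
      linear_combination (-(tq q y.1.1.1 y.1.1.2.1 y.1.1.2.2 0)) * h1⟩, y.1.2⟩, by
    have h1 := mul_inv' y.2
    change (wl q v h).val y.1 * Ring.inverse ((wl q v h).val y.1) = 1 at h1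
    have h2 : (wl q v h).val y.1 = aeval y.1.1.1 (pL q v 0) * y.1.1.2.1 +
      aeval y.1.1.1 (pL q v 1) * y.1.1.2.2 := rfl
    have h3 := congrArg (aeval (y.1.1.1 : R)) (pL_dot D.iso)
    simp only [map_add, map_mul, map_zero] at h3
    have h4 := y.2
    change IsUnit ((wl q v h).val y.1) at h4
    change IsUnit (aeval y.1.1.1 (pL q v 0) * (y.1.1.2.1 + -(tq q y.1.1.1 y.1.1.2.1 y.1.1.2.2 0 *
        Ring.inverse ((wl q v h).val y.1)) * aeval y.1.1.1 (v 0)) +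
      aeval y.1.1.1 (pL q v 1) * (y.1.1.2.2 + -(tq q y.1.1.1 y.1.1.2.1 y.1.1.2.2 0 *
        Ring.inverse ((wl q v h).val y.1)) * aeval y.1.1.1 (v 1)) +
      aeval y.1.1.1 (pL q v 2) * (0 + -(tq q y.1.1.1 y.1.1.2.1 y.1.1.2.2 0 *
        Ring.inverse ((wl q v h).val y.1)) * aeval y.1.1.1 (v 2)))
    convert h4 using 1
    rw [h2]
    linear_combination (-(tq q y.1.1.1 y.1.1.2.1 y.1.1.2.2 0 *
        Ring.inverse (aeval y.1.1.1 (pL q v 0) * y.1.1.2.1 +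
      aeval y.1.1.1 (pL q v 1) * y.1.1.2.2))) * h3⟩
  inv_hom {R} _ _ x := by
    have ht : IsUnit (aeval x.1.1.1.2.2.2 h) := x.1.2
    have hF : tq q x.1.1.1.2.2.2 x.1.1.1.1 x.1.1.1.2.1 x.1.1.1.2.2.1 = 0 := x.1.1.2
    have h1 := D.form ht x.1.1.1.1 x.1.1.1.2.1 x.1.1.1.2.2.1
    have hl : IsUnit (aeval x.1.1.1.2.2.2 (pL q v 0) * x.1.1.1.1 +
      aeval x.1.1.1.2.2.2 (pL q v 1) * x.1.1.1.2.1 +
      aeval x.1.1.1.2.2.2 (pL q v 2) * x.1.1.1.2.2.1) := x.2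
    have hlin := D.lin ht x.1.1.1.1 x.1.1.1.2.1 x.1.1.1.2.2.1
    have h2 := mul_inv' hl
    have h3 := mul_inv' (D.u2 R _ ht)
    have key : -(tq q x.1.1.1.2.2.2 (x.1.1.1.1 - x.1.1.1.2.2.1 *
        Ring.inverse (aeval x.1.1.1.2.2.2 (v 2)) * aeval x.1.1.1.2.2.2 (v 0))
      (x.1.1.1.2.1 - x.1.1.1.2.2.1 * Ring.inverse (aeval x.1.1.1.2.2.2 (v 2)) *
        aeval x.1.1.1.2.2.2 (v 1)) 0 * Ring.inverse
        (aeval x.1.1.1.2.2.2 (pL q v 0) * (x.1.1.1.1 - x.1.1.1.2.2.1 *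
          Ring.inverse (aeval x.1.1.1.2.2.2 (v 2)) * aeval x.1.1.1.2.2.2 (v 0)) +
        aeval x.1.1.1.2.2.2 (pL q v 1) * (x.1.1.1.2.1 - x.1.1.1.2.2.1 *
          Ring.inverse (aeval x.1.1.1.2.2.2 (v 2)) * aeval x.1.1.1.2.2.2 (v 1)))) =
        x.1.1.1.2.2.1 * Ring.inverse (aeval x.1.1.1.2.2.2 (v 2)) := by
      rw [hlin]
      rw [hF] at h1
      linear_combination (Ring.inverse (aeval x.1.1.1.2.2.2 (pL q v 0) * x.1.1.1.1 +
        aeval x.1.1.1.2.2.2 (pL q v 1) * x.1.1.1.2.1 +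
        aeval x.1.1.1.2.2.2 (pL q v 2) * x.1.1.1.2.2.1)) * h1 +
        (x.1.1.1.2.2.1 * Ring.inverse (aeval x.1.1.1.2.2.2 (v 2))) * h2
    refine Subtype.ext (Subtype.ext (Subtype.ext (Prod.ext ?_ (Prod.ext ?_ (Prod.ext ?_ rfl)))))
    · refine (congrArg (fun s => (x.1.1.1.1 - x.1.1.1.2.2.1 *
        Ring.inverse (aeval x.1.1.1.2.2.2 (v 2)) * aeval x.1.1.1.2.2.2 (v 0)) +
        s * aeval x.1.1.1.2.2.2 (v 0)) key).trans ?_
      ring
    · refine (congrArg (fun s => (x.1.1.1.2.1 - x.1.1.1.2.2.1 *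
        Ring.inverse (aeval x.1.1.1.2.2.2 (v 2)) * aeval x.1.1.1.2.2.2 (v 1)) +
        s * aeval x.1.1.1.2.2.2 (v 1)) key).trans ?_
      ring
    · refine (congrArg (fun s => 0 + s * aeval x.1.1.1.2.2.2 (v 2)) key).trans ?_
      linear_combination x.1.1.1.2.2.1 * h3
  hom_inv {R} _ _ y := by
    have ht : IsUnit (aeval y.1.1.1 h) := y.1.2
    have h3 := mul_inv' (D.u2 R _ ht)
    refine Subtype.ext (Subtype.ext (Prod.ext rfl (Prod.ext ?_ ?_)))
    · change y.1.1.2.1 + -(tq q y.1.1.1 y.1.1.2.1 y.1.1.2.2 0 *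
          Ring.inverse ((wl q v h).val y.1)) * aeval y.1.1.1 (v 0) -
        (0 + -(tq q y.1.1.1 y.1.1.2.1 y.1.1.2.2 0 *
          Ring.inverse ((wl q v h).val y.1)) * aeval y.1.1.1 (v 2)) *
          Ring.inverse (aeval y.1.1.1 (v 2)) * aeval y.1.1.1 (v 0) = y.1.1.2.1
      linear_combination (tq q y.1.1.1 y.1.1.2.1 y.1.1.2.2 0 *
          Ring.inverse ((wl q v h).val y.1) * aeval y.1.1.1 (v 0)) * h3
    · change y.1.1.2.2 + -(tq q y.1.1.1 y.1.1.2.1 y.1.1.2.2 0 *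
          Ring.inverse ((wl q v h).val y.1)) * aeval y.1.1.1 (v 1) -
        (0 + -(tq q y.1.1.1 y.1.1.2.1 y.1.1.2.2 0 *
          Ring.inverse ((wl q v h).val y.1)) * aeval y.1.1.1 (v 2)) *
          Ring.inverse (aeval y.1.1.1 (v 2)) * aeval y.1.1.1 (v 1) = y.1.1.2.2
      linear_combination (tq q y.1.1.1 y.1.1.2.1 y.1.1.2.2 0 *
          Ring.inverse ((wl q v h).val y.1) * aeval y.1.1.1 (v 1)) * h3
  nat {R S} _ _ _ _ f x := by
    have ht : IsUnit (aeval x.1.1.1.2.2.2 h) := x.1.2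
    have h3 := D.u2 R _ ht
    refine Subtype.ext (Subtype.ext (Prod.ext rfl (Prod.ext ?_ ?_)))
    · change f (x.1.1.1.1 - x.1.1.1.2.2.1 * Ring.inverse (aeval x.1.1.1.2.2.2 (v 2)) *
        aeval x.1.1.1.2.2.2 (v 0)) = f x.1.1.1.1 - f x.1.1.1.2.2.1 *
        Ring.inverse (aeval (f x.1.1.1.2.2.2) (v 2)) * aeval (f x.1.1.1.2.2.2) (v 0)
      rw [map_sub, map_mul, map_mul, inv_nat f h3, ← aeval_algHom_apply, ← aeval_algHom_apply]
    · change f (x.1.1.1.2.1 - x.1.1.1.2.2.1 * Ring.inverse (aeval x.1.1.1.2.2.2 (v 2)) *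
        aeval x.1.1.1.2.2.2 (v 1)) = f x.1.1.1.2.1 - f x.1.1.1.2.2.1 *
        Ring.inverse (aeval (f x.1.1.1.2.2.2) (v 2)) * aeval (f x.1.1.1.2.2.2) (v 1)
      rw [map_sub, map_mul, map_mul, inv_nat f h3, ← aeval_algHom_apply, ← aeval_algHom_apply]

/-- the value of the form at `(-L₁, L₀, 0)` -/
noncomputable def dl (q : Fin 6 → K[X]) (v : Fin 3 → K[X]) : K[X] :=
  q 0 * pL q v 1 ^ 2 - q 1 * (pL q v 0 * pL q v 1) + q 2 * pL q v 0 ^ 2

theorem aeval_dl (q : Fin 6 → K[X]) (v : Fin 3 → K[X]) {R : Type} [CommRing R] [Algebra K R]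
    (t i x : R) (hi : aeval t (pL q v 0) * i = 1) :
    tq q t (-(i * aeval t (pL q v 1) * x)) x 0 = i ^ 2 * (aeval t (dl q v) * x ^ 2) := by
  have h1 : aeval t (dl q v) = aeval t (q 0) * aeval t (pL q v 1) ^ 2 -
      aeval t (q 1) * (aeval t (pL q v 0) * aeval t (pL q v 1)) +
      aeval t (q 2) * aeval t (pL q v 0) ^ 2 := by
    unfold dl
    simp only [map_add, map_sub, map_mul, map_pow]
  rw [h1]
  unfold tq te
  linear_combination (aeval t (q 1) * i * aeval t (pL q v 1) * x ^ 2 -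
    aeval t (q 2) * x ^ 2 * (aeval t (pL q v 0) * i + 1)) * hi

/-- `δ(t) y ^ 2 = 0` -/
noncomputable def wd (δ h : K[X]) : Coord ((A3 K).opn (polyC (A3.t K) h)) where
  val x := aeval x.1.1 δ * x.1.2.1 ^ 2
  nat f x := by
    simp only [map_mul, map_pow, ← aeval_algHom_apply]
    rfl

theorem mem_wd [IsAlgClosed K] (hG : GOps K G) {h : K[X]} (h0 : h ≠ 0) (δ : K[X])
    (hδ : δ = 0 ∨ ∀ (R : Type) [CommRing R] [Algebra K R] (t : R), IsUnit (aeval t h) →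
      IsUnit (aeval t δ)) : (((A3 K).opn (polyC (A3.t K) h)).cls (wd δ h)).Mem G := by
  rcases hδ with rfl | hδ
  · refine mem_cls_zero _ _ (fun R _ _ x => ?_) (mem_A3_open hG h0)
    change aeval x.1.1 (0 : K[X]) * x.1.2.1 ^ 2 = 0
    rw [map_zero, zero_mul]
  · let y : Coord (((A3 K).opn (polyC (A3.t K) h)).cls (wd δ h)) :=
      ⟨fun x => x.1.1.2.1, fun _ _ => rfl⟩
    refine Mem.glue hG.toKOps y (Mem.of_trivial hG.toKOps fun A _ _ x => ?_)
      (Mem.of_iso ?_ (mem_A2_open hG h0))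
    · have h1 : aeval x.1.1.1.1 δ * x.1.1.1.2.1 ^ 2 = 0 := x.1.2
      have h2 : IsUnit x.1.1.1.2.1 := x.2
      have h3 := (hδ A _ x.1.1.2).mul (h2.pow 2)
      change IsUnit (aeval x.1.1.1.1 δ * x.1.1.1.2.1 ^ 2) at h3
      rw [h1] at h3
      exact subsingleton_of_zero_eq_one (isUnit_zero_iff.1 h3)
    · exact
        { hom := fun {R} _ _ x => ⟨(x.1.1.1.1, x.1.1.1.2.2), x.1.1.2⟩
          inv := fun {R} _ _ z => ⟨⟨⟨(z.1.1, 0, z.1.2), z.2⟩, by
            change aeval z.1.1 δ * (0 : R) ^ 2 = 0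
            ring⟩, rfl⟩
          inv_hom := fun {R} _ _ x => by
            have h1 : x.1.1.1.2.1 = 0 := x.2
            exact Subtype.ext (Subtype.ext (Subtype.ext (Prod.ext rfl (Prod.ext h1.symm rfl))))
          hom_inv := fun _ => rfl
          nat := fun f _ => Subtype.ext (Prod.ext rfl rfl) }

/-- the part where the polar form vanishes -/
noncomputable def isoZ (D : PD q v h)
    (u0 : ∀ (R : Type) [CommRing R] [Algebra K R] (t : R), IsUnit (aeval t h) →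
      IsUnit (aeval t (pL q v 0))) :
    Iso ((QBo q h).cls (QBo.l q v h)) (((A3 K).opn (polyC (A3.t K) h)).cls (wd (dl q v) h)) where
  hom {R} _ _ x := ⟨⟨(x.1.1.1.2.2.2,
      x.1.1.1.2.1 - x.1.1.1.2.2.1 * Ring.inverse (aeval x.1.1.1.2.2.2 (v 2)) *
        aeval x.1.1.1.2.2.2 (v 1), x.1.1.1.2.2.1), x.1.2⟩, by
    have ht : IsUnit (aeval x.1.1.1.2.2.2 h) := x.1.2
    have hF : tq q x.1.1.1.2.2.2 x.1.1.1.1 x.1.1.1.2.1 x.1.1.1.2.2.1 = 0 := x.1.1.2
    have hl : aeval x.1.1.1.2.2.2 (pL q v 0) * x.1.1.1.1 +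
      aeval x.1.1.1.2.2.2 (pL q v 1) * x.1.1.1.2.1 +
      aeval x.1.1.1.2.2.2 (pL q v 2) * x.1.1.1.2.2.1 = 0 := x.2
    have h1 := D.form ht x.1.1.1.1 x.1.1.1.2.1 x.1.1.1.2.2.1
    rw [hF, hl, mul_zero, add_zero] at h1
    have h2 := D.lin ht x.1.1.1.1 x.1.1.1.2.1 x.1.1.1.2.2.1
    rw [hl] at h2
    have h3 := mul_inv' (u0 R _ ht)
    have h4 : x.1.1.1.1 - x.1.1.1.2.2.1 * Ring.inverse (aeval x.1.1.1.2.2.2 (v 2)) *
        aeval x.1.1.1.2.2.2 (v 0) = -(Ring.inverse (aeval x.1.1.1.2.2.2 (pL q v 0)) *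
        aeval x.1.1.1.2.2.2 (pL q v 1) * (x.1.1.1.2.1 - x.1.1.1.2.2.1 *
          Ring.inverse (aeval x.1.1.1.2.2.2 (v 2)) * aeval x.1.1.1.2.2.2 (v 1))) := by
      linear_combination (Ring.inverse (aeval x.1.1.1.2.2.2 (pL q v 0))) * h2 -
        (x.1.1.1.1 - x.1.1.1.2.2.1 * Ring.inverse (aeval x.1.1.1.2.2.2 (v 2)) *
        aeval x.1.1.1.2.2.2 (v 0)) * h3
    rw [h4, aeval_dl _ _ _ _ _ h3] at h1
    change aeval x.1.1.1.2.2.2 (dl q v) * (x.1.1.1.2.1 - x.1.1.1.2.2.1 *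
      Ring.inverse (aeval x.1.1.1.2.2.2 (v 2)) * aeval x.1.1.1.2.2.2 (v 1)) ^ 2 = 0
    generalize (x.1.1.1.2.1 - x.1.1.1.2.2.1 *
      Ring.inverse (aeval x.1.1.1.2.2.2 (v 2)) * aeval x.1.1.1.2.2.2 (v 1)) = w at h1 ⊢
    linear_combination (-(aeval x.1.1.1.2.2.2 (pL q v 0)) ^ 2) * h1 -
      (aeval x.1.1.1.2.2.2 (pL q v 0) * Ring.inverse (aeval x.1.1.1.2.2.2 (pL q v 0)) + 1) *
        (aeval x.1.1.1.2.2.2 (dl q v) * w ^ 2) * h3⟩
  inv {R} _ _ y := ⟨⟨⟨(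
      -(Ring.inverse (aeval y.1.1.1 (pL q v 0)) * aeval y.1.1.1 (pL q v 1) * y.1.1.2.1) +
        y.1.1.2.2 * Ring.inverse (aeval y.1.1.1 (v 2)) * aeval y.1.1.1 (v 0),
      y.1.1.2.1 + y.1.1.2.2 * Ring.inverse (aeval y.1.1.1 (v 2)) * aeval y.1.1.1 (v 1),
      y.1.1.2.2, y.1.1.1), by
      have ht : IsUnit (aeval y.1.1.1 h) := y.1.2
      have h2 := mul_inv' (D.u2 R _ ht)
      have h3 := mul_inv' (u0 R _ ht)
      have hy : aeval y.1.1.1 (dl q v) * y.1.1.2.1 ^ 2 = 0 := y.2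
      have h4 := tq_add D.iso y.1.1.1 (-(Ring.inverse (aeval y.1.1.1 (pL q v 0)) *
        aeval y.1.1.1 (pL q v 1) * y.1.1.2.1)) y.1.1.2.1 0
        (y.1.1.2.2 * Ring.inverse (aeval y.1.1.1 (v 2)))
      have e3 : 0 + y.1.1.2.2 * Ring.inverse (aeval y.1.1.1 (v 2)) * aeval y.1.1.1 (v 2) =
        y.1.1.2.2 := by linear_combination y.1.1.2.2 * h2
      rw [e3, aeval_dl _ _ _ _ _ h3, hy, mul_zero] at h4
      refine h4.trans ?_
      linear_combination (-(y.1.1.2.2 * Ring.inverse (aeval y.1.1.1 (v 2)) *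
        aeval y.1.1.1 (pL q v 1) * y.1.1.2.1)) * h3⟩, y.1.2⟩, by
    have ht : IsUnit (aeval y.1.1.1 h) := y.1.2
    have h2 := mul_inv' (D.u2 R _ ht)
    have h3 := mul_inv' (u0 R _ ht)
    have h5 := congrArg (aeval (y.1.1.1 : R)) (pL_dot D.iso)
    simp only [map_add, map_mul, map_zero] at h5
    change aeval y.1.1.1 (pL q v 0) * (-(Ring.inverse (aeval y.1.1.1 (pL q v 0)) *
      aeval y.1.1.1 (pL q v 1) * y.1.1.2.1) +
        y.1.1.2.2 * Ring.inverse (aeval y.1.1.1 (v 2)) * aeval y.1.1.1 (v 0)) +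
      aeval y.1.1.1 (pL q v 1) * (y.1.1.2.1 + y.1.1.2.2 * Ring.inverse (aeval y.1.1.1 (v 2)) *
        aeval y.1.1.1 (v 1)) + aeval y.1.1.1 (pL q v 2) * y.1.1.2.2 = 0
    linear_combination (-(aeval y.1.1.1 (pL q v 1) * y.1.1.2.1)) * h3 +
      (y.1.1.2.2 * Ring.inverse (aeval y.1.1.1 (v 2))) * h5 -
      (aeval y.1.1.1 (pL q v 2) * y.1.1.2.2) * h2⟩
  inv_hom {R} _ _ x := by
    have ht : IsUnit (aeval x.1.1.1.2.2.2 h) := x.1.2
    have hl : aeval x.1.1.1.2.2.2 (pL q v 0) * x.1.1.1.1 +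
      aeval x.1.1.1.2.2.2 (pL q v 1) * x.1.1.1.2.1 +
      aeval x.1.1.1.2.2.2 (pL q v 2) * x.1.1.1.2.2.1 = 0 := x.2
    have h2 := D.lin ht x.1.1.1.1 x.1.1.1.2.1 x.1.1.1.2.2.1
    rw [hl] at h2
    have h3 := mul_inv' (u0 R _ ht)
    refine Subtype.ext (Subtype.ext (Subtype.ext (Prod.ext ?_ (Prod.ext ?_ (Prod.ext rfl rfl)))))
    · change -(Ring.inverse (aeval x.1.1.1.2.2.2 (pL q v 0)) *
        aeval x.1.1.1.2.2.2 (pL q v 1) * (x.1.1.1.2.1 - x.1.1.1.2.2.1 *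
          Ring.inverse (aeval x.1.1.1.2.2.2 (v 2)) * aeval x.1.1.1.2.2.2 (v 1))) +
        x.1.1.1.2.2.1 * Ring.inverse (aeval x.1.1.1.2.2.2 (v 2)) * aeval x.1.1.1.2.2.2 (v 0) =
        x.1.1.1.1
      linear_combination (-(Ring.inverse (aeval x.1.1.1.2.2.2 (pL q v 0)))) * h2 +
        (x.1.1.1.1 - x.1.1.1.2.2.1 * Ring.inverse (aeval x.1.1.1.2.2.2 (v 2)) *
        aeval x.1.1.1.2.2.2 (v 0)) * h3
    · change x.1.1.1.2.1 - x.1.1.1.2.2.1 * Ring.inverse (aeval x.1.1.1.2.2.2 (v 2)) *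
        aeval x.1.1.1.2.2.2 (v 1) + x.1.1.1.2.2.1 *
        Ring.inverse (aeval x.1.1.1.2.2.2 (v 2)) * aeval x.1.1.1.2.2.2 (v 1) = x.1.1.1.2.1
      ring
  hom_inv {R} _ _ y := by
    refine Subtype.ext (Subtype.ext (Prod.ext rfl (Prod.ext ?_ rfl)))
    change y.1.1.2.1 + y.1.1.2.2 * Ring.inverse (aeval y.1.1.1 (v 2)) * aeval y.1.1.1 (v 1) -
      y.1.1.2.2 * Ring.inverse (aeval y.1.1.1 (v 2)) * aeval y.1.1.1 (v 1) = y.1.1.2.1
    ring
  nat {R S} _ _ _ _ f x := by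
    have ht : IsUnit (aeval x.1.1.1.2.2.2 h) := x.1.2
    have h3 := D.u2 R _ ht
    refine Subtype.ext (Subtype.ext (Prod.ext rfl (Prod.ext ?_ rfl)))
    change f (x.1.1.1.2.1 - x.1.1.1.2.2.1 * Ring.inverse (aeval x.1.1.1.2.2.2 (v 2)) *
        aeval x.1.1.1.2.2.2 (v 1)) = f x.1.1.1.2.1 - f x.1.1.1.2.2.1 *
        Ring.inverse (aeval (f x.1.1.1.2.2.2) (v 2)) * aeval (f x.1.1.1.2.2.2) (v 1)
    rw [map_sub, map_mul, map_mul, inv_nat f h3, ← aeval_algHom_apply, ← aeval_algHom_apply]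

end proj

theorem unit_of_dvd {h a : K[X]} (hd : a ∣ h) (R : Type) [CommRing R] [Algebra K R] (t : R)
    (ht : IsUnit (aeval t h)) : IsUnit (aeval t a) := by
  obtain ⟨b, rfl⟩ := hd
  rw [map_mul] at ht
  exact isUnit_of_mul_isUnit_left ht

/-- the case of an isotropic vector with `v₂ ≠ 0` and `L₀ ≠ 0` -/
theorem QB.mem_aux [IsAlgClosed K] (hG : GOps K G) (q : Fin 6 → K[X]) (v : Fin 3 → K[X])
    (hv : Isot q v) (h2 : v 2 ≠ 0) (hL : pL q v 0 ≠ 0) : (QB q).Mem G := by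
  obtain ⟨h, h0, d2, d0, hδ⟩ : ∃ h : K[X], h ≠ 0 ∧ v 2 ∣ h ∧ pL q v 0 ∣ h ∧
      (dl q v = 0 ∨ ∀ (R : Type) [CommRing R] [Algebra K R] (t : R), IsUnit (aeval t h) →
        IsUnit (aeval t (dl q v))) := by
    by_cases hd : dl q v = 0
    · exact ⟨v 2 * pL q v 0, mul_ne_zero h2 hL, dvd_mul_right _ _, dvd_mul_left _ _,
        Or.inl hd⟩
    · exact ⟨v 2 * pL q v 0 * dl q v, mul_ne_zero (mul_ne_zero h2 hL) hd,
        (dvd_mul_right _ _).mul_right _, (dvd_mul_left _ _).mul_right _,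
        Or.inr (unit_of_dvd (dvd_mul_left _ _))⟩
  have D : PD q v h := ⟨hv, unit_of_dvd d2⟩
  refine mem_fibres hG.toKOps _ _ (QB.r q) h h0 rfl (QB.fib hG q)
    (Mem.glue hG.toKOps (QBo.l q v h) (Mem.of_iso (isoP D) ?_)
      (Mem.of_iso (isoZ D (unit_of_dvd d0)) (mem_wd hG h0 _ hδ)))
  exact mem_lin_open hG h0 (pL q v 0) (pL q v 1) (unit_of_dvd d0) _ fun R _ _ x => rfl

end Pool.Agent.Helper11.TP
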