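import Mathlib

/-!
# Tsen's theorem for conics over the function field of the line
-/

set_option autoImplicit false

namespace Pool.Agent.Helper11.TP

open Polynomial

variable {K : Type} [Field K]

/-- the property of having a nontrivial zero -/
def Iso3 (a b : K[X]) : Prop :=
  ∃ x y z : K[X], (x ≠ 0 ∨ y ≠ 0 ∨ z ≠ 0) ∧ x ^ 2 = a * y ^ 2 + b * z ^ 2

theorem Iso3.symm {a b : K[X]} (h : Iso3 a b) : Iso3 b a := by
  obtain ⟨x, y, z, h0, h1⟩ := h
  exact ⟨x, z, y, by tauto, by rw [h1]; ring⟩

theorem Iso3.sq {a b s : K[X]} (hs : s ≠ 0) (h : Iso3 a b) : Iso3 (s ^ 2 * a) b := by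
  obtain ⟨x, y, z, h0, h1⟩ := h
  refine ⟨s * x, y, s * z, ?_, ?_⟩
  · rcases h0 with h0 | h0 | h0
    · exact Or.inl (mul_ne_zero hs h0)
    · exact Or.inr (Or.inl h0)
    · exact Or.inr (Or.inr (mul_ne_zero hs h0))
  · linear_combination s ^ 2 * h1

theorem Iso3.const [IsAlgClosed K] (c : K) (b : K[X]) : Iso3 (C c) b := by
  obtain ⟨r, hr⟩ := IsAlgClosed.exists_pow_nat_eq c (n := 2) two_pos
  exact ⟨C r, 1, 0, Or.inr (Or.inl one_ne_zero), by rw [← C_pow, hr]; ring⟩

/-- the descent -/
theorem Iso3.desc {a b s a' : K[X]} (ha' : a' ≠ 0) (hs : s ^ 2 - b = a * a')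
    (h : Iso3 a' b) : Iso3 a b := by
  obtain ⟨x, y, z, h0, h1⟩ := h
  by_cases hy : y = 0
  · subst hy
    exact ⟨x, 0, z, h0, by rw [h1]; ring⟩
  · refine ⟨s * x + b * z, a' * y, s * z + x, Or.inr (Or.inl (mul_ne_zero ha' hy)), ?_⟩
    have e1 : a' * y ^ 2 = x ^ 2 - b * z ^ 2 := by rw [h1]; ring
    linear_combination (x ^ 2 - b * z ^ 2) * hs - a * a' * e1

/-- a polynomial with simple roots: square roots modulo it -/
theorem exists_sqrt [IsAlgClosed K] (a b : K[X]) (ha : a ≠ 0) (hr : a.roots.Nodup)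
    (hd : 0 < a.natDegree) :
    ∃ s : K[X], s.natDegree < a.natDegree ∧ a ∣ s ^ 2 - b := by
  classical
  choose r hr2 using fun c : K => IsAlgClosed.exists_pow_nat_eq c (n := 2) two_pos
  set S := a.roots.toFinset with hS
  have hcard : S.card = a.natDegree := by
    rw [hS, Multiset.toFinset_card_of_nodup hr]
    exact (IsAlgClosed.splits a).natDegree_eq_card_roots.symm
  refine ⟨Lagrange.interpolate S id (fun c => r (b.eval c)), ?_, ?_⟩
  · have h1 := Lagrange.degree_interpolate_lt (s := S) (v := id) (fun c => r (b.eval c))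
      (Function.injective_id.injOn)
    rw [hcard] at h1
    by_cases h0 : Lagrange.interpolate S id (fun c => r (b.eval c)) = 0
    · rw [h0, natDegree_zero]
      exact hd
    · exact (natDegree_lt_iff_degree_lt h0).2 h1
  · have h2 : a = C a.leadingCoeff * ∏ c ∈ S, (X - C c) := by
      have h3 := (IsAlgClosed.splits a).eq_prod_roots
      rw [h3]
      congr 1
      · rw [← h3]
      · rw [Finset.prod_eq_multiset_prod, hS, Multiset.toFinset_val, Multiset.dedup_eq_self.2 hr]
    rw [h2]
    rw [(isUnit_C.2 (isUnit_iff_ne_zero.2 (leadingCoeff_ne_zero.2 ha))).mul_left_dvd]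
    refine Finset.prod_dvd_of_coprime ?_ ?_
    · intro c _ d _ hcd
      exact isCoprime_X_sub_C_of_isUnit_sub (isUnit_iff_ne_zero.2 (sub_ne_zero.2 hcd))
    · intro c hc
      rw [dvd_iff_isRoot, IsRoot, eval_sub, eval_pow,
        ← show id c = c from rfl, Lagrange.eval_interpolate_at_node _ Function.injective_id.injOn hc,
        hr2]
      simp

theorem tsen_aux [IsAlgClosed K] (n : ℕ) : ∀ a b : K[X], a ≠ 0 → b ≠ 0 →
    a.natDegree + b.natDegree ≤ n → Iso3 a b := by
  classical
  induction n with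
  | zero =>
    intro a b _ _ h
    rw [eq_C_of_natDegree_eq_zero (p := a) (by omega)]
    exact Iso3.const _ _
  | succ n ih =>
    -- the reduction of the first polynomial
    have key : ∀ a b : K[X], a ≠ 0 → b ≠ 0 → a.natDegree + b.natDegree ≤ n + 1 →
        b.natDegree ≤ a.natDegree → Iso3 a b := by
      intro a b ha hb h hab
      rcases Nat.eq_zero_or_pos a.natDegree with hd | hd
      · rw [eq_C_of_natDegree_eq_zero hd]
        exact Iso3.const _ _
      by_cases hr : a.roots.Nodup
      · obtain ⟨s, hs, a', ha'⟩ := exists_sqrt a b ha hr hd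
        by_cases h0 : a' = 0
        · refine ⟨s, 0, 1, Or.inr (Or.inr one_ne_zero), ?_⟩
          rw [h0, mul_zero, sub_eq_zero] at ha'
          rw [ha']
          ring
        · refine Iso3.desc h0 ha' (ih a' b h0 hb ?_)
          have h3 : (a * a').natDegree = a.natDegree + a'.natDegree := natDegree_mul ha h0
          have h4 : (s ^ 2 - b).natDegree ≤ max (s ^ 2).natDegree b.natDegree :=
            natDegree_sub_le _ _
          rw [ha', h3, natDegree_pow] at h4
          rcases le_max_iff.1 h4 with h5 | h5 <;> omega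
      · rw [Multiset.nodup_iff_count_le_one] at hr
        push Not at hr
        obtain ⟨c, hc⟩ := hr
        have h1 : (X - C c) ^ 2 ∣ a := by
          rw [count_roots] at hc
          exact (pow_dvd_pow _ hc).trans (pow_rootMultiplicity_dvd a c)
        obtain ⟨a', rfl⟩ := h1
        have h2 : a' ≠ 0 := right_ne_zero_of_mul ha
        refine Iso3.sq (X_sub_C_ne_zero c) (ih a' b h2 hb ?_)
        rw [natDegree_mul (pow_ne_zero _ (X_sub_C_ne_zero c)) h2, natDegree_pow,
          natDegree_X_sub_C] at h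
        omega
    intro a b ha hb h
    rcases le_total b.natDegree a.natDegree with hab | hab
    · exact key a b ha hb h hab
    · exact (key b a hb ha (by omega) hab).symm

/-- **Tsen's theorem** for diagonal ternary quadratic forms over `K(r)` -/
theorem tsen [IsAlgClosed K] (a b : K[X]) (ha : a ≠ 0) (hb : b ≠ 0) :
    ∃ x y z : K[X], (x ≠ 0 ∨ y ≠ 0 ∨ z ≠ 0) ∧ x ^ 2 = a * y ^ 2 + b * z ^ 2 :=
  tsen_aux _ a b ha hb le_rfl

end Pool.Agent.Helper11.TP
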